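import Mathlib

/-!
# Temperley–Lieb words

A *datum* consists of a set `H` of heights of two types, a symmetric neighbour relation changing
the type, and weights for cups and caps subject to the Temperley–Lieb relations.  A word in cups,
caps and edge operations acts on functions on lists of heights.  The main result of this file,
`exists_poly`, says that the value of a closed word is given by one polynomial with integer
coefficients in the loop value `q` of the datum.
-/

namespace Pool.Agent.Work.MP_569662_co

open Finset

set_option linter.unusedSectionVars false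

/-- The data of a height representation. -/
structure Datum (H : Type) where
  N : H → Finset H
  κ : H → H → ℝ
  lam : H → H → ℝ
  ty : H → Bool
  q : ℝ
  symm : ∀ {u x}, x ∈ N u → u ∈ N x
  ty_ne : ∀ {u x}, x ∈ N u → ty x = !ty u
  zig : ∀ {u x}, x ∈ N u → κ u x * lam x u = 1
  loopB : ∀ {u}, ty u = true → ∑ x ∈ N u, κ u x * lam u x = q
  loopA : ∀ {u}, ty u = false → ∑ x ∈ N u, κ u x * lam u x = 1

variable {H : Type} [DecidableEq H]

/-- Insert a cup after position `k`. -/
def cupF (D : Datum H) : ℕ → (List H → ℝ) → (List H → ℝ)
  | _, _, [] => 0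
  | 0, F, u :: t => ∑ x ∈ D.N u, D.κ u x * F (u :: x :: u :: t)
  | k + 1, F, u :: t => cupF D k (fun t' => F (u :: t')) t

/-- Close a cap after position `k`. -/
def capF (D : Datum H) : ℕ → (List H → ℝ) → (List H → ℝ)
  | _, _, [] => 0
  | 0, _, [_] => 0
  | 0, _, [_, _] => 0
  | 0, F, u :: y :: u' :: t => if u = u' then D.lam u y * F (u :: t) else 0
  | k + 1, F, u :: t => capF D k (fun t' => F (u :: t')) t

/-- The list is a path in the neighbour graph. -/
def Path (D : Datum H) : List H → Prop
  | [] => True
  | [_] => True
  | u :: v :: t => v ∈ D.N u ∧ Path D (v :: t)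

section basic

variable (D : Datum H)

@[simp] lemma cupF_nil (k : ℕ) (F : List H → ℝ) : cupF D k F [] = 0 := by cases k <;> rfl
@[simp] lemma capF_nil (k : ℕ) (F : List H → ℝ) : capF D k F [] = 0 := by cases k <;> rfl

@[simp] lemma cupF_zero (F : List H → ℝ) (u : H) (t : List H) :
    cupF D 0 F (u :: t) = ∑ x ∈ D.N u, D.κ u x * F (u :: x :: u :: t) := rfl
@[simp] lemma cupF_succ (k : ℕ) (F : List H → ℝ) (u : H) (t : List H) :
    cupF D (k + 1) F (u :: t) = cupF D k (fun t' => F (u :: t')) t := rfl
@[simp] lemma capF_zero (F : List H → ℝ) (u y u' : H) (t : List H) :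
    capF D 0 F (u :: y :: u' :: t) = if u = u' then D.lam u y * F (u :: t) else 0 := rfl
@[simp] lemma capF_zero_one (F : List H → ℝ) (u : H) :
    capF D 0 F [u] = 0 := rfl
@[simp] lemma capF_zero_two (F : List H → ℝ) (u v : H) :
    capF D 0 F [u, v] = 0 := rfl
@[simp] lemma capF_succ (k : ℕ) (F : List H → ℝ) (u : H) (t : List H) :
    capF D (k + 1) F (u :: t) = capF D k (fun t' => F (u :: t')) t := by
  rw [capF]

/-- Position lemma for cups. -/
lemma cupF_append (F : List H → ℝ) (p : List H) (u : H) (t : List H) :
    cupF D p.length F (p ++ u :: t) = ∑ x ∈ D.N u, D.κ u x * F (p ++ u :: x :: u :: t) := by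
  induction p generalizing F with
  | nil => rfl
  | cons a p ih => simpa using ih (fun t' => F (a :: t'))

/-- Position lemma for caps. -/
lemma capF_append (F : List H → ℝ) (p : List H) (u y u' : H) (t : List H) :
    capF D p.length F (p ++ u :: y :: u' :: t) =
      if u = u' then D.lam u y * F (p ++ u :: t) else 0 := by
  induction p generalizing F with
  | nil => rfl
  | cons a p ih => simpa using ih (fun t' => F (a :: t'))

/-- Splitting a list at a valid position. -/
lemma exists_split {l : List H} {k : ℕ} (hk : k < l.length) :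
    ∃ p u t, l = p ++ u :: t ∧ p.length = k := by
  refine ⟨l.take k, l[k], l.drop (k + 1), ?_, by simp; omega⟩
  rw [← List.drop_eq_getElem_cons hk, List.take_append_drop]

lemma exists_split3 {l : List H} {k : ℕ} (hk : k + 2 < l.length) :
    ∃ p u y u' t, l = p ++ u :: y :: u' :: t ∧ p.length = k := by
  obtain ⟨p, u, t, rfl, hp⟩ := exists_split (l := l) (k := k) (by omega)
  rcases t with _ | ⟨y, _ | ⟨u', t⟩⟩
  · simp at hk; omega
  · simp at hk; omega
  · exact ⟨p, u, y, u', t, rfl, hp⟩

lemma path_append_cons {p t : List H} {u : H} :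
    Path D (p ++ u :: t) ↔ Path D (p ++ [u]) ∧ Path D (u :: t) := by
  induction p with
  | nil => simp [Path]
  | cons a p ih =>
    rcases p with _ | ⟨b, p⟩
    · simp [Path]
    · simp only [List.cons_append, Path] at ih ⊢
      rw [ih]; tauto

end basic

section relations

variable (D : Datum H)

lemma cupF_congr {F G : List H → ℝ} {l : List H} {k : ℕ} (hl : Path D l) (hk : k < l.length)
    (h : ∀ l', Path D l' → l'.length = l.length + 2 → l'.head? = l.head? → F l' = G l') :
    cupF D k F l = cupF D k G l := by
  obtain ⟨p, u, t, rfl, rfl⟩ := exists_split hk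
  rw [cupF_append, cupF_append]
  refine Finset.sum_congr rfl fun x hx => ?_
  congr 1
  apply h
  · rw [path_append_cons] at hl ⊢
    refine ⟨hl.1, hx, D.symm hx, hl.2⟩
  · simp; omega
  · cases p <;> simp

lemma capF_congr {F G : List H → ℝ} {l : List H} {k : ℕ} (hl : Path D l) (hk : k + 2 < l.length)
    (h : ∀ l', Path D l' → l'.length + 2 = l.length → l'.head? = l.head? → F l' = G l') :
    capF D k F l = capF D k G l := by
  obtain ⟨p, u, y, u', t, rfl, rfl⟩ := exists_split3 hk
  rw [capF_append, capF_append]
  split_ifs with hu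
  · subst hu
    congr 1
    apply h
    · rw [path_append_cons] at hl ⊢
      exact ⟨hl.1, hl.2.2.2⟩
    · simp; omega
    · cases p <;> simp
  · rfl

lemma cupF_const_mul (c : ℝ) (F : List H → ℝ) (k : ℕ) (l : List H) :
    cupF D k (fun l => c * F l) l = c * cupF D k F l := by
  induction k generalizing F l with
  | zero =>
    cases l with
    | nil => simp
    | cons u t =>
      simp only [cupF_zero, Finset.mul_sum]
      refine Finset.sum_congr rfl fun x _ => by ring
  | succ k ih =>
    cases l with
    | nil => simp
    | cons u t => simpa using ih (fun t' => F (u :: t')) t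

lemma capF_const_mul (c : ℝ) (F : List H → ℝ) (k : ℕ) (l : List H) :
    capF D k (fun l => c * F l) l = c * capF D k F l := by
  induction k generalizing F l with
  | zero =>
    rcases l with _ | ⟨u, _ | ⟨y, _ | ⟨u', t⟩⟩⟩ <;> simp
    split_ifs
    · ring
    · rfl
  | succ k ih =>
    cases l with
    | nil => simp
    | cons u t => simpa using ih (fun t' => F (u :: t')) t

lemma cupF_add (F G : List H → ℝ) (k : ℕ) (l : List H) :
    cupF D k (fun l => F l + G l) l = cupF D k F l + cupF D k G l := by
  induction k generalizing F G l with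
  | zero =>
    cases l with
    | nil => simp
    | cons u t =>
      simp only [cupF_zero, ← Finset.sum_add_distrib]
      refine Finset.sum_congr rfl fun x _ => by ring
  | succ k ih =>
    cases l with
    | nil => simp
    | cons u t => simpa using ih (fun t' => F (u :: t')) (fun t' => G (u :: t')) t

lemma capF_add (F G : List H → ℝ) (k : ℕ) (l : List H) :
    capF D k (fun l => F l + G l) l = capF D k F l + capF D k G l := by
  induction k generalizing F G l with
  | zero =>
    rcases l with _ | ⟨u, _ | ⟨y, _ | ⟨u', t⟩⟩⟩ <;> simp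
    split_ifs
    · ring
    · ring
  | succ k ih =>
    cases l with
    | nil => simp
    | cons u t => simpa using ih (fun t' => F (u :: t')) (fun t' => G (u :: t')) t

lemma capF_sum {ι : Type} (s : Finset ι) (F : ι → List H → ℝ) (k : ℕ) (l : List H) :
    capF D k (fun l => ∑ i ∈ s, F i l) l = ∑ i ∈ s, capF D k (F i) l := by
  classical
  induction s using Finset.induction_on with
  | empty =>
    simp only [Finset.sum_empty]
    have := capF_const_mul D 0 (fun _ => 0) k l
    simpa using this
  | insert a s ha ih =>
    simp only [Finset.sum_insert ha]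
    rw [capF_add, ih]

/-- R1: a cup closed by a cap at the same place is a loop. -/
lemma cup_cap_same (F : List H → ℝ) {p t : List H} {u : H} :
    cupF D p.length (capF D p.length F) (p ++ u :: t)
      = (if D.ty u = true then D.q else 1) * F (p ++ u :: t) := by
  rw [cupF_append]
  simp only [capF_append, if_true]
  have : ∑ x ∈ D.N u, D.κ u x * (D.lam u x * F (p ++ u :: t))
      = (∑ x ∈ D.N u, D.κ u x * D.lam u x) * F (p ++ u :: t) := by
    rw [Finset.sum_mul]; refine Finset.sum_congr rfl fun x _ => by ring
  rw [this]
  split_ifs with h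
  · rw [D.loopB h]
  · rw [D.loopA (by simpa using h)]

/-- R2: zigzag. -/
lemma cup_cap_right (F : List H → ℝ) {p t : List H} {u y : H} (hy : y ∈ D.N u) :
    cupF D p.length (capF D (p.length + 1) F) (p ++ u :: y :: t) = F (p ++ u :: y :: t) := by
  rw [cupF_append]
  have h1 : ∀ x, capF D (p.length + 1) F (p ++ u :: x :: u :: y :: t)
      = if x = y then D.lam x u * F (p ++ u :: x :: t) else 0 := by
    intro x
    have := capF_append D F (p ++ [u]) x u y t
    simpa using this
  simp only [h1, mul_ite, mul_zero]
  rw [Finset.sum_ite_eq' (D.N u) y, if_pos hy, ← mul_assoc, D.zig hy, one_mul]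

/-- R2': zigzag. -/
lemma cup_cap_left (F : List H → ℝ) {p t : List H} {u y : H} (hy : y ∈ D.N u) :
    cupF D (p.length + 1) (capF D p.length F) (p ++ u :: y :: t) = F (p ++ u :: y :: t) := by
  have h0 : cupF D (p.length + 1) (capF D p.length F) (p ++ u :: y :: t)
      = ∑ x ∈ D.N y, D.κ y x * capF D p.length F (p ++ u :: y :: x :: y :: t) := by
    have := cupF_append D (capF D p.length F) (p ++ [u]) y t
    simpa using this
  rw [h0]
  have h1 : ∀ x, capF D p.length F (p ++ u :: y :: x :: y :: t)
      = if u = x then D.lam u y * F (p ++ u :: y :: t) else 0 := by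
    intro x
    exact capF_append D F p u y x (y :: t)
  simp only [h1, mul_ite, mul_zero]
  rw [Finset.sum_ite_eq (D.N y) u, if_pos (D.symm hy), ← mul_assoc, D.zig (D.symm hy), one_mul]

/-- R3: a far cap to the right commutes. -/
lemma cup_cap_far_right (k j : ℕ) (F : List H → ℝ) (l : List H) :
    cupF D k (capF D (k + j + 2) F) l = capF D (k + j) (cupF D k F) l := by
  induction k generalizing F l with
  | zero =>
    cases l with
    | nil => simp
    | cons u t =>
      simp only [cupF_zero, Nat.zero_add]
      cases j with
      | zero =>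
        rcases t with _ | ⟨y, _ | ⟨u', t⟩⟩
        · simp
        · simp
        · simp only [capF_succ, capF_zero, cupF_zero]
          split_ifs with h
          · rw [Finset.mul_sum]
            refine Finset.sum_congr rfl fun x _ => by ring
          · simp
      | succ j =>
        simp only [capF_succ]
        have := capF_sum D (D.N u) (fun x t' => D.κ u x * F (u :: x :: u :: t')) j t
        have e1 : (fun t' => cupF D 0 F (u :: t')) =
            fun l => ∑ i ∈ D.N u, D.κ u i * F (u :: i :: u :: l) := by
          funext t'; rw [cupF_zero]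
        rw [e1, this]
        refine Finset.sum_congr rfl fun x _ => ?_
        rw [capF_const_mul]
  | succ k ih =>
    cases l with
    | nil => simp
    | cons u t =>
      have e1 : k + 1 + j + 2 = (k + j + 2) + 1 := by ring
      have e2 : k + 1 + j = (k + j) + 1 := by ring
      rw [e1, e2]
      simp only [cupF_succ, capF_succ]
      exact ih (fun t' => F (u :: t')) t

/-- R3': a far cap to the left commutes. -/
lemma cup_cap_far_left (j k : ℕ) (F : List H → ℝ) (l : List H) :
    cupF D (j + k + 2) (capF D j F) l = capF D j (cupF D (j + k) F) l := by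
  induction j generalizing F l with
  | zero =>
    cases l with
    | nil => simp
    | cons u t =>
      simp only [Nat.zero_add, cupF_succ]
      rcases t with _ | ⟨y, _ | ⟨u', t⟩⟩
      · simp
      · simp
      · cases k with
        | zero =>
          simp only [cupF_succ, cupF_zero, capF_zero]
          split_ifs with h
          · subst h
            rw [Finset.mul_sum]
            refine Finset.sum_congr rfl fun x _ => by ring
          · simp
        | succ k =>
          simp only [cupF_succ, capF_zero]
          split_ifs with h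
          · subst h
            exact cupF_const_mul D _ (fun t' => F (u :: t')) k t
          · have := cupF_const_mul D 0 (fun _ => 0) (k+1) (u' :: t)
            simpa using this
  | succ j ih =>
    cases l with
    | nil => simp
    | cons u t =>
      have e1 : j + 1 + k + 2 = (j + k + 2) + 1 := by ring
      have e2 : j + 1 + k = (j + k) + 1 := by ring
      rw [e1, e2]
      simp only [cupF_succ, capF_succ]
      exact ih (fun t' => F (u :: t')) t

end relations

/-! ### Words -/

/-- Cup/cap operations. -/
inductive CC
  | cup (k : ℕ)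
  | cap (k : ℕ)

/-- The value of a cup/cap word, as a function on lists. -/
def VC (D : Datum H) : List CC → List H → ℝ
  | [], l => if l.length = 1 then 1 else 0
  | CC.cup k :: w, l => cupF D k (VC D w) l
  | CC.cap k :: w, l => capF D k (VC D w) l

/-- Validity of a cup/cap word for lists of length `n`; the final length is `1`. -/
def ValidC : List CC → ℕ → Prop
  | [], n => n = 1
  | CC.cup k :: w, n => k < n ∧ ValidC w (n + 2)
  | CC.cap k :: w, n => k + 2 < n ∧ ValidC w (n - 2)

/-- Good lists: paths starting at type `true`. -/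
def Good (D : Datum H) (l : List H) : Prop := Path D l ∧ ∀ u, l.head? = some u → D.ty u = true

lemma ty_getElem (D : Datum H) (p : List H) (u : H) (t : List H) (h : Good D (p ++ u :: t)) :
    D.ty u = decide (p.length % 2 = 0) := by
  obtain ⟨hp, hh⟩ := h
  induction p using List.reverseRecOn generalizing u t with
  | nil =>
    simpa using hh u (by simp)
  | append_singleton p a ih =>
    have h1 : D.ty a = decide (p.length % 2 = 0) := by
      apply ih a (u :: t)
      · simpa using hp
      · intro v hv; apply hh; simpa using hv
    have h2 : u ∈ D.N a := by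
      have : Path D (p ++ a :: u :: t) := by simpa using hp
      rw [path_append_cons] at this
      exact this.2.1
    rw [D.ty_ne h2, h1]
    simp only [List.length_append, List.length_singleton]
    rcases Nat.mod_two_eq_zero_or_one p.length with h | h <;> simp [h, Nat.add_mod]

/-- Equivalence of words on good lists of length `n`, up to a power of `q`. -/
def Eqv (n : ℕ) (w w' : List CC) (c : ℕ) : Prop :=
  ∀ {H : Type} [DecidableEq H] (D : Datum H) (l : List H), Good D l → l.length = n →
    VC D w l = D.q ^ c * VC D w' l

lemma Eqv.cup {n k c : ℕ} {w w' : List CC} (h : Eqv (n + 2) w w' c) (hk : k < n) :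
    Eqv n (CC.cup k :: w) (CC.cup k :: w') c := by
  intro H _ D l hl hn
  have : cupF D k (VC D w) l = cupF D k (fun l => D.q ^ c * VC D w' l) l := by
    apply cupF_congr D hl.1 (by omega)
    intro l' hl' hlen hhead
    exact h D l' ⟨hl', by rw [hhead]; exact hl.2⟩ (by omega)
  rw [VC, this, cupF_const_mul, VC]

lemma Eqv.trans {n c c' : ℕ} {w w' w'' : List CC} (h : Eqv n w w' c) (h' : Eqv n w' w'' c') :
    Eqv n w w'' (c + c') := by
  intro H _ D l hl hn
  rw [h D l hl hn, h' D l hl hn, pow_add, mul_assoc]

/-- One cup followed by one cap. -/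
lemma step (n k j : ℕ) (rest : List CC) (hk : k < n) (hj : j < n) (hr : ValidC rest n) :
    (∃ c, Eqv n (CC.cup k :: CC.cap j :: rest) rest c) ∨
    (∃ j' k', j' + 2 < n ∧ k' < n - 2 ∧
      Eqv n (CC.cup k :: CC.cap j :: rest) (CC.cap j' :: CC.cup k' :: rest) 0) := by
  rcases lt_trichotomy j k with h | h | h
  · -- j < k
    rcases Nat.lt_or_ge (j + 1) k with h2 | h2
    · right
      obtain ⟨k', rfl⟩ : ∃ k', k = j + k' + 2 := ⟨k - j - 2, by omega⟩
      refine ⟨j, j + k', by omega, by omega, ?_⟩
      intro H _ D l hl hn
      simp only [VC, pow_zero, one_mul]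
      exact cup_cap_far_left D j k' (VC D rest) l
    · left
      obtain rfl : k = j + 1 := by omega
      refine ⟨0, ?_⟩
      intro H _ D l hl hn
      obtain ⟨p, u, t, rfl, rfl⟩ := exists_split (l := l) (k := j) (by omega)
      rcases t with _ | ⟨y, t⟩
      · simp at hn; omega
      simp only [VC, pow_zero, one_mul]
      apply cup_cap_left
      have := hl.1
      rw [path_append_cons] at this
      exact this.2.1
  · left
    subst h
    refine ⟨if j % 2 = 0 then 1 else 0, ?_⟩
    intro H _ D l hl hn
    obtain ⟨p, u, t, rfl, rfl⟩ := exists_split (l := l) (k := j) (by omega)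
    simp only [VC]
    rw [cup_cap_same, ty_getElem D p u t hl]
    by_cases hp : p.length % 2 = 0 <;> simp [hp]
  · -- k < j
    rcases Nat.lt_or_ge (k + 1) j with h2 | h2
    · right
      obtain ⟨j', rfl⟩ : ∃ j', j = k + j' + 2 := ⟨j - k - 2, by omega⟩
      refine ⟨k + j', k, by omega, by omega, ?_⟩
      intro H _ D l hl hn
      simp only [VC, pow_zero, one_mul]
      exact cup_cap_far_right D k j' (VC D rest) l
    · left
      obtain rfl : j = k + 1 := by omega
      refine ⟨0, ?_⟩
      intro H _ D l hl hn
      obtain ⟨p, u, t, rfl, rfl⟩ := exists_split (l := l) (k := k) (by omega)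
      rcases t with _ | ⟨y, t⟩
      · simp at hn; omega
      simp only [VC, pow_zero, one_mul]
      apply cup_cap_right
      have := hl.1
      rw [path_append_cons] at this
      exact this.2.1

/-- Moving the first cap of a word to the front, or cancelling it. -/
lemma cancel (ks : List ℕ) : ∀ (n j : ℕ) (rest : List CC),
    ValidC (ks.map CC.cup ++ CC.cap j :: rest) n →
    (∃ c w', w'.length < (ks.map CC.cup ++ CC.cap j :: rest).length ∧ ValidC w' n ∧
      Eqv n (ks.map CC.cup ++ CC.cap j :: rest) w' c) ∨
    (∃ j' w', j' + 2 < n ∧ ValidC w' (n - 2) ∧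
      (w'.length + 1 = (ks.map CC.cup ++ CC.cap j :: rest).length) ∧
      Eqv n (ks.map CC.cup ++ CC.cap j :: rest) (CC.cap j' :: w') 0) := by
  induction ks with
  | nil =>
    intro n j rest h
    right
    refine ⟨j, rest, ?_, ?_, by simp, ?_⟩
    · simpa [ValidC] using h.1
    · simpa [ValidC] using h.2
    · intro H _ D l _ _; simp
  | cons k ks ih =>
    intro n j rest h
    simp only [List.map_cons, List.cons_append, ValidC] at h
    obtain ⟨hk, h⟩ := h
    rcases ih (n + 2) j rest h with ⟨c, w', hlen, hv, he⟩ | ⟨j', w', hj', hv, hlen, he⟩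
    · left
      refine ⟨c, CC.cup k :: w', ?_, ⟨hk, hv⟩, ?_⟩
      · simp at hlen ⊢; omega
      · exact he.cup hk
    · have hv' : ValidC w' n := by simpa using hv
      have he' : Eqv n (CC.cup k :: (ks.map CC.cup ++ CC.cap j :: rest))
          (CC.cup k :: CC.cap j' :: w') 0 := he.cup hk
      rcases step n k j' w' hk (by omega) hv' with ⟨c, hc⟩ | ⟨j'', k'', hj'', hk'', hc⟩
      · left
        refine ⟨0 + c, w', ?_, hv', ?_⟩
        · simp at hlen ⊢; omega
        · exact he'.trans hc
      · right
        refine ⟨j'', CC.cup k'' :: w', hj'', ⟨hk'', ?_⟩, ?_, ?_⟩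
        · have : n - 2 + 2 = n := by omega
          rwa [this]
        · simp at hlen ⊢; omega
        · exact he'.trans hc

lemma cups_or_cap (w : List CC) :
    (∃ ks : List ℕ, w = ks.map CC.cup) ∨
    (∃ (ks : List ℕ) (j : ℕ) (rest : List CC), w = ks.map CC.cup ++ CC.cap j :: rest) := by
  induction w with
  | nil => left; exact ⟨[], rfl⟩
  | cons a w ih =>
    cases a with
    | cap j => right; exact ⟨[], j, w, rfl⟩
    | cup k =>
      rcases ih with ⟨ks, rfl⟩ | ⟨ks, j, rest, rfl⟩
      · left; exact ⟨k :: ks, rfl⟩
      · right; exact ⟨k :: ks, j, rest, rfl⟩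

lemma validC_cups (ks : List ℕ) (n : ℕ) (h : ValidC (ks.map CC.cup) n) :
    n + 2 * ks.length = 1 := by
  induction ks generalizing n with
  | nil => simpa [ValidC] using h
  | cons k ks ih =>
    have := ih (n + 2) h.2
    simp; omega

/-- The value of a closed cup/cap word is a power of the loop value. -/
theorem exists_pow (m : ℕ) : ∀ w : List CC, w.length ≤ m → ValidC w 1 →
    ∃ c : ℕ, ∀ {H : Type} [DecidableEq H] (D : Datum H) (h₀ : H), D.ty h₀ = true →
      VC D w [h₀] = D.q ^ c := by
  induction m with
  | zero =>
    intro w hw hv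
    obtain rfl : w = [] := List.length_eq_zero_iff.mp (by omega)
    exact ⟨0, fun D h₀ _ => by simp [VC]⟩
  | succ m ih =>
    intro w hw hv
    rcases cups_or_cap w with ⟨ks, rfl⟩ | ⟨ks, j, rest, rfl⟩
    · have := validC_cups ks 1 hv
      obtain rfl : ks = [] := List.length_eq_zero_iff.mp (by omega)
      exact ⟨0, fun D h₀ _ => by simp [VC]⟩
    · rcases cancel ks 1 j rest hv with ⟨c, w', hlen, hv', he⟩ | ⟨j', w', hj', _, _, _⟩
      · obtain ⟨c', hc'⟩ := ih w' (by omega) hv'
        refine ⟨c + c', ?_⟩
        intro H _ D h₀ hh
        have h1 := he D [h₀] ⟨by simp [Path], by simpa using hh⟩ (by simp)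
        rw [h1, hc' D h₀ hh, pow_add]
      · omega

/-- General operations: cups, caps and edges. -/
inductive GO
  | cup (k : ℕ)
  | cap (k : ℕ)
  | edge (k : ℕ)

/-- The value of a word of general operations. -/
def VG (D : Datum H) : List GO → List H → ℝ
  | [], l => if l.length = 1 then 1 else 0
  | GO.cup k :: w, l => cupF D k (VG D w) l
  | GO.cap k :: w, l => capF D k (VG D w) l
  | GO.edge k :: w, l => VG D w l - capF D k (cupF D k (VG D w)) l

/-- Validity. -/
def ValidG : List GO → ℕ → Prop
  | [], n => n = 1
  | GO.cup k :: w, n => k < n ∧ ValidG w (n + 2)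
  | GO.cap k :: w, n => k + 2 < n ∧ ValidG w (n - 2)
  | GO.edge k :: w, n => k + 2 < n ∧ ValidG w n

/-- Expansion of a general word into cup/cap words. -/
def expand : List GO → List (ℤ × List CC)
  | [] => [(1, [])]
  | GO.cup k :: w => (expand w).map fun x => (x.1, CC.cup k :: x.2)
  | GO.cap k :: w => (expand w).map fun x => (x.1, CC.cap k :: x.2)
  | GO.edge k :: w => expand w ++ (expand w).map fun x => (-x.1, CC.cap k :: CC.cup k :: x.2)

/-- The value of a formal combination of cup/cap words. -/
def VL (D : Datum H) (L : List (ℤ × List CC)) (l : List H) : ℝ :=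
  (L.map fun x => (x.1 : ℝ) * VC D x.2 l).sum

lemma VL_nil (D : Datum H) : VL D [] = fun _ => 0 := by
  funext l; simp [VL]

lemma VL_neg (D : Datum H) (L : List (ℤ × List CC)) (g : List CC → List CC) (l : List H) :
    VL D (L.map fun x => (-x.1, g x.2)) l = - VL D (L.map fun x => (x.1, g x.2)) l := by
  induction L with
  | nil => simp [VL]
  | cons a L ih =>
    simp only [VL, List.map_cons, List.sum_cons] at ih ⊢
    rw [ih]; push_cast; ring

lemma VL_append (D : Datum H) (L L' : List (ℤ × List CC)) (l : List H) :
    VL D (L ++ L') l = VL D L l + VL D L' l := by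
  simp [VL]

lemma VL_cup (D : Datum H) (L : List (ℤ × List CC)) (k : ℕ) (l : List H) :
    VL D (L.map fun x => (x.1, CC.cup k :: x.2)) l = cupF D k (VL D L) l := by
  induction L with
  | nil =>
    have := cupF_const_mul D 0 (fun _ => 0) k l
    simp only [zero_mul] at this
    rw [List.map_nil, VL_nil, this]
  | cons a L ih =>
    have e : VL D (a :: L) = fun l => (a.1 : ℝ) * VC D a.2 l + VL D L l := by
      funext l; simp [VL]
    rw [e, cupF_add, cupF_const_mul, ← ih]
    simp [VL, VC]

lemma VL_cap (D : Datum H) (L : List (ℤ × List CC)) (k : ℕ) (l : List H) :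
    VL D (L.map fun x => (x.1, CC.cap k :: x.2)) l = capF D k (VL D L) l := by
  induction L with
  | nil =>
    have := capF_const_mul D 0 (fun _ => 0) k l
    simp only [zero_mul] at this
    rw [List.map_nil, VL_nil, this]
  | cons a L ih =>
    have e : VL D (a :: L) = fun l => (a.1 : ℝ) * VC D a.2 l + VL D L l := by
      funext l; simp [VL]
    rw [e, capF_add, capF_const_mul, ← ih]
    simp [VL, VC]

lemma VG_eq_VL (D : Datum H) (w : List GO) : VG D w = VL D (expand w) := by
  induction w with
  | nil => funext l; simp [VG, VL, expand, VC]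
  | cons a w ih =>
    funext l
    cases a with
    | cup k => rw [VG, expand, VL_cup, ih]
    | cap k => rw [VG, expand, VL_cap, ih]
    | edge k =>
      rw [VG, expand]
      have h1 : VL D (expand w ++ (expand w).map fun x => (-x.1, CC.cap k :: CC.cup k :: x.2)) l
          = VL D (expand w) l - VL D (((expand w).map fun x => (x.1, CC.cup k :: x.2)).map
              fun x => (x.1, CC.cap k :: x.2)) l := by
        rw [VL_append, VL_neg D (expand w) (fun y => CC.cap k :: CC.cup k :: y), List.map_map,
          sub_eq_add_neg]
        rfl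
      rw [h1, VL_cap]
      have h2 : VL D ((expand w).map fun x => (x.1, CC.cup k :: x.2)) = cupF D k (VL D (expand w)) := by
        funext l; exact VL_cup D _ k l
      rw [h2, ih]

lemma valid_expand (w : List GO) : ∀ n, ValidG w n → ∀ x ∈ expand w, ValidC x.2 n := by
  induction w with
  | nil => intro n h x hx; simp [expand] at hx; subst hx; simpa [ValidG, ValidC] using h
  | cons a w ih =>
    intro n h x hx
    cases a with
    | cup k =>
      simp only [expand, List.mem_map] at hx
      obtain ⟨y, hy, rfl⟩ := hx
      exact ⟨h.1, ih _ h.2 y hy⟩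
    | cap k =>
      simp only [expand, List.mem_map] at hx
      obtain ⟨y, hy, rfl⟩ := hx
      exact ⟨h.1, ih _ h.2 y hy⟩
    | edge k =>
      simp only [expand, List.mem_append, List.mem_map] at hx
      rcases hx with hx | ⟨y, hy, rfl⟩
      · exact ih _ h.2 x hx
      · refine ⟨h.1, ?_, ?_⟩
        · have := h.1; omega
        · have : n - 2 + 2 = n := by have := h.1; omega
          rw [this]; exact ih _ h.2 y hy

/-- **Main theorem of this file**: the value of a closed word is an integer polynomial in the loop
value. -/
theorem exists_poly (w : List GO) (hv : ValidG w 1) :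
    ∃ P : Polynomial ℤ, ∀ {H : Type} [DecidableEq H] (D : Datum H) (h₀ : H), D.ty h₀ = true →
      VG D w [h₀] = (P.map (Int.castRingHom ℝ)).eval D.q := by
  have key : ∀ L : List (ℤ × List CC), (∀ x ∈ L, ValidC x.2 1) →
      ∃ P : Polynomial ℤ, ∀ {H : Type} [DecidableEq H] (D : Datum H) (h₀ : H), D.ty h₀ = true →
        VL D L [h₀] = (P.map (Int.castRingHom ℝ)).eval D.q := by
    intro L
    induction L with
    | nil => intro _; exact ⟨0, fun D h₀ _ => by simp [VL]⟩
    | cons a L ih =>
      intro h
      obtain ⟨P, hP⟩ := ih fun x hx => h x (List.mem_cons_of_mem _ hx)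
      obtain ⟨c, hc⟩ := exists_pow _ a.2 le_rfl (h a List.mem_cons_self)
      refine ⟨Polynomial.C a.1 * Polynomial.X ^ c + P, ?_⟩
      intro H _ D h₀ hh
      have : VL D (a :: L) [h₀] = (a.1 : ℝ) * VC D a.2 [h₀] + VL D L [h₀] := by simp [VL]
      rw [this, hc D h₀ hh, hP D h₀ hh]
      simp
  obtain ⟨P, hP⟩ := key (expand w) (valid_expand w 1 hv)
  refine ⟨P, ?_⟩
  intro H _ D h₀ hh
  rw [VG_eq_VL, hP D h₀ hh]

end Pool.Agent.Work.MP_569662_co
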