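import Mathlib
import Pool.Agent.Work.MP_569662_co.TL

/-!
# Sweeping a plane graph

`Sweep front R E`: a plane graph can be completed from the list `front` of (copies of) vertices met
by the sweep line, introducing the vertices of `R` (in this order) and drawing the edges `E`.
-/

namespace Pool.Agent.Work.MP_569662_co

open Finset

set_option linter.unusedSectionVars false

/-- Completing a plane graph from a front. -/
inductive Sweep {V : Type} : List V → List V → List (V × V) → Prop
  | done : Sweep [] [] []
  | new (l₁ l₂ : List V) (v : V) (R : List V) (E : List (V × V)) :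
      Sweep (l₁ ++ v :: l₂) R E → Sweep (l₁ ++ l₂) (v :: R) E
  | dup (l₁ l₂ : List V) (v : V) (R : List V) (E : List (V × V)) :
      Sweep (l₁ ++ v :: v :: l₂) R E → Sweep (l₁ ++ v :: l₂) R E
  | forget (l₁ l₂ : List V) (v : V) (R : List V) (E : List (V × V)) :
      Sweep (l₁ ++ l₂) R E → Sweep (l₁ ++ v :: l₂) R E
  | edge (l₁ l₂ : List V) (u v : V) (R : List V) (E : List (V × V)) :
      Sweep (l₁ ++ u :: v :: l₂) R E → Sweep (l₁ ++ u :: v :: l₂) R ((u, v) :: E)

/-! ### The spin representation -/

/-- The datum of the `N`-colour representation: faces carry the unique height `none`, vertices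
carry a colour. -/
def spinD (N : ℕ) : Datum (Option (Fin N)) where
  N := fun u => match u with
    | none => Finset.univ.map ⟨some, Option.some_injective _⟩
    | some _ => {none}
  κ := fun _ _ => 1
  lam := fun _ _ => 1
  ty := fun u => u.isNone
  q := N
  symm := by
    intro u x h
    rcases u with _ | u <;> rcases x with _ | x <;> simp at h ⊢
  ty_ne := by
    intro u x h
    rcases u with _ | u <;> rcases x with _ | x <;> simp at h ⊢
  zig := by intro u x _; norm_num
  loopB := by
    intro u h
    rcases u with _ | u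
    · simp
    · simp at h
  loopA := by
    intro u h
    rcases u with _ | u
    · simp at h
    · simp

section spin

variable {V : Type}

/-- The part of the path before a given position. -/
def spre {N : ℕ} (c : V → Fin N) : List V → List (Option (Fin N))
  | [] => []
  | v :: l => none :: some (c v) :: spre c l

/-- The path of a front with colours `c`. -/
def spath {N : ℕ} (c : V → Fin N) (l : List V) : List (Option (Fin N)) := spre c l ++ [none]

lemma spre_append {N : ℕ} (c : V → Fin N) (l₁ l₂ : List V) :
    spre c (l₁ ++ l₂) = spre c l₁ ++ spre c l₂ := by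
  induction l₁ with
  | nil => rfl
  | cons a l ih => simp [spre, ih]

lemma length_spre {N : ℕ} (c : V → Fin N) (l : List V) : (spre c l).length = 2 * l.length := by
  induction l with
  | nil => rfl
  | cons a l ih => simp [spre, ih]; ring

lemma spre_congr {N : ℕ} (c c' : V → Fin N) (l : List V) (h : ∀ v ∈ l, c v = c' v) :
    spre c l = spre c' l := by
  induction l with
  | nil => rfl
  | cons a l ih =>
    simp only [spre]
    rw [h a List.mem_cons_self, ih fun v hv => h v (List.mem_cons_of_mem _ hv)]

/-- `spath` always starts with `none`. -/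
lemma exists_spath {N : ℕ} (c : V → Fin N) (l : List V) : ∃ t, spath c l = none :: t := by
  cases l with
  | nil => exact ⟨[], rfl⟩
  | cons a l => exact ⟨some (c a) :: (spre c l ++ [none]), rfl⟩

/-- The number of completions of a colouring of part of the graph. -/
noncomputable def cnt [Fintype V] [DecidableEq V] (N : ℕ) (c : V → Fin N) (R : List V)
    (E : List (V × V)) : ℕ :=
  (Finset.univ.filter fun κ : V → Fin N =>
    (∀ v, v ∉ R → κ v = c v) ∧ ∀ e ∈ E, κ e.1 ≠ κ e.2).card

lemma cnt_new [Fintype V] [DecidableEq V] (N : ℕ) (c : V → Fin N) (v : V) (R : List V)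
    (E : List (V × V)) (hv : v ∉ R) :
    cnt N c (v :: R) E = ∑ a : Fin N, cnt N (Function.update c v a) R E := by
  classical
  unfold cnt
  rw [Finset.card_eq_sum_card_fiberwise (f := fun κ : V → Fin N => κ v) (t := Finset.univ)
    (fun _ _ => Finset.mem_coe.2 (Finset.mem_univ _))]
  refine Finset.sum_congr rfl fun a _ => ?_
  congr 1
  ext κ
  simp only [Finset.mem_filter, Finset.mem_univ, true_and, List.mem_cons, not_or]
  constructor
  · rintro ⟨⟨h1, h2⟩, h3⟩
    refine ⟨fun u hu => ?_, h2⟩
    by_cases huv : u = v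
    · subst huv; simpa using h3
    · rw [Function.update_of_ne huv]; exact h1 u ⟨huv, hu⟩
  · rintro ⟨h1, h2⟩
    refine ⟨⟨fun u hu => ?_, h2⟩, ?_⟩
    · have := h1 u hu.2
      rwa [Function.update_of_ne hu.1] at this
    · have := h1 v hv
      simpa using this

lemma cnt_edge [Fintype V] [DecidableEq V] (N : ℕ) (c : V → Fin N) (u v : V) (R : List V)
    (E : List (V × V)) (hu : u ∉ R) (hv : v ∉ R) :
    (cnt N c R ((u, v) :: E) : ℝ) = cnt N c R E - if c u = c v then (cnt N c R E : ℝ) else 0 := by
  classical
  split_ifs with h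
  · rw [sub_self]
    norm_cast
    unfold cnt
    rw [Finset.card_eq_zero, Finset.filter_eq_empty_iff]
    rintro κ - ⟨h1, h2⟩
    apply h2 (u, v) List.mem_cons_self
    simp only
    rw [h1 u hu, h1 v hv, h]
  · rw [sub_zero]
    norm_cast
    unfold cnt
    congr 1
    ext κ
    simp only [Finset.mem_filter, Finset.mem_univ, true_and, List.mem_cons]
    constructor
    · rintro ⟨h1, h2⟩
      exact ⟨h1, fun e he => h2 e (Or.inr he)⟩
    · rintro ⟨h1, h2⟩
      refine ⟨h1, ?_⟩
      rintro e (rfl | he)
      · simp only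
        rw [h1 u hu, h1 v hv]; exact h
      · exact h2 e he

end spin

/-! ### Positive data -/

/-- Positivity conditions on a datum. -/
structure Pos {H : Type} (D : Datum H) : Prop where
  k1 : ∀ {u x}, D.ty u = false → x ∈ D.N u → D.κ u x = 1
  kpos : ∀ {u x}, D.ty u = true → x ∈ D.N u → 0 < D.κ u x
  l0 : ∀ {u x}, D.ty u = false → x ∈ D.N u → 0 ≤ D.lam u x
  l1 : ∀ {u x}, D.ty u = false → x ∈ D.N u → D.lam u x ≤ 1
  two : ∀ {u x y z}, D.ty u = false → x ∈ D.N u → y ∈ D.N u → z ∈ D.N u → x ≠ y →
    z = x ∨ z = y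

lemma Pos.lpos {H : Type} {D : Datum H} (hD : Pos D) {u x : H} (hu : D.ty u = true)
    (hx : x ∈ D.N u) : D.lam u x = 1 := by
  have h1 := D.zig (D.symm hx)
  have h2 : D.ty x = false := by rw [D.ty_ne hx, hu]; rfl
  rwa [hD.k1 h2 (D.symm hx), one_mul] at h1

section gauge

variable {V H : Type} [DecidableEq H]

/-- The elementary sign. -/
def eps (lab : Bool) (x y : H) : ℝ := if lab = true ∧ x ≠ y then -1 else 1

lemma eps_self (lab : Bool) (x : H) : eps lab x x = 1 := by simp [eps]

lemma eps_false (x y : H) : eps false x y = 1 := by simp [eps]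

/-- The gauge sign. -/
def sgn (lab : V → Bool) : List V → List H → ℝ
  | [], _ => 1
  | v :: vs, b :: _ :: b' :: t => eps (lab v) b b' * sgn lab vs (b' :: t)
  | _ :: _, _ => 1

lemma sgn_cons (lab : V → Bool) (v : V) (vs : List V) (b a b' : H) (t : List H) :
    sgn lab (v :: vs) (b :: a :: b' :: t) = eps (lab v) b b' * sgn lab vs (b' :: t) := rfl

lemma sgn_append (lab : V → Bool) (l₁ l₂ : List V) (p : List H) (u : H) (t : List H)
    (hp : p.length = 2 * l₁.length) :
    sgn lab (l₁ ++ l₂) (p ++ u :: t) = sgn lab l₁ (p ++ [u]) * sgn lab l₂ (u :: t) := by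
  induction l₁ generalizing p with
  | nil =>
    obtain rfl : p = [] := List.length_eq_zero_iff.mp (by simpa using hp)
    simp [sgn]
  | cons v l ih =>
    rcases p with _ | ⟨b, _ | ⟨a, p⟩⟩
    · simp at hp
    · simp at hp; omega
    have hp' : p.length = 2 * l.length := by simp at hp; omega
    rcases p with _ | ⟨b', p⟩
    · cases l with
      | nil => simp [sgn]
      | cons _ _ => simp at hp'
    · have := ih (b' :: p) hp'
      simp only [List.cons_append] at this ⊢
      rw [sgn_cons, sgn_cons, this, mul_assoc]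

/-- The special path of a front: all faces at `c₀`, the vertex `v` at `s (lab v)`. -/
def hpre (lab : V → Bool) (c₀ : H) (s : Bool → H) : List V → List H
  | [] => []
  | v :: l => c₀ :: s (lab v) :: hpre lab c₀ s l

def hpath (lab : V → Bool) (c₀ : H) (s : Bool → H) (l : List V) : List H :=
  hpre lab c₀ s l ++ [c₀]

lemma hpre_append (lab : V → Bool) (c₀ : H) (s : Bool → H) (l₁ l₂ : List V) :
    hpre lab c₀ s (l₁ ++ l₂) = hpre lab c₀ s l₁ ++ hpre lab c₀ s l₂ := by
  induction l₁ with
  | nil => rfl
  | cons a l ih => simp [hpre, ih]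

lemma length_hpre (lab : V → Bool) (c₀ : H) (s : Bool → H) (l : List V) :
    (hpre lab c₀ s l).length = 2 * l.length := by
  induction l with
  | nil => rfl
  | cons a l ih => simp [hpre, ih]; ring

lemma exists_hpath (lab : V → Bool) (c₀ : H) (s : Bool → H) (l : List V) :
    ∃ t, hpath lab c₀ s l = c₀ :: t := by
  cases l with
  | nil => exact ⟨[], rfl⟩
  | cons a l => exact ⟨s (lab a) :: (hpre lab c₀ s l ++ [c₀]), rfl⟩

lemma sgn_hpre (lab : V → Bool) (c₀ : H) (s : Bool → H) (l : List V) :
    sgn lab l (hpre lab c₀ s l ++ [c₀]) = 1 := by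
  induction l with
  | nil => rfl
  | cons v l ih =>
    obtain ⟨t, ht⟩ := exists_hpath lab c₀ s l
    have h1 : hpre lab c₀ s (v :: l) ++ [c₀] = c₀ :: s (lab v) :: (hpath lab c₀ s l) := rfl
    rw [h1, ht, sgn_cons, eps_self, one_mul, ← ht]
    exact ih

lemma path_hpath (D : Datum H) (lab : V → Bool) (c₀ : H) (s : Bool → H)
    (hs : ∀ b, s b ∈ D.N c₀) (l : List V) : Path D (hpath lab c₀ s l) := by
  induction l with
  | nil => simp [hpath, hpre, Path]
  | cons v l ih =>
    obtain ⟨t, ht⟩ := exists_hpath lab c₀ s l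
    have h1 : hpath lab c₀ s (v :: l) = c₀ :: s (lab v) :: (hpath lab c₀ s l) := rfl
    rw [h1]
    rw [ht] at ih ⊢
    exact ⟨hs _, D.symm (hs _), ih⟩

end gauge

end Pool.Agent.Work.MP_569662_co
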