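import Mathlib
import Pool.Agent.Work.MP_569662_co.Sweep

/-!
# From sweeps to words
-/

namespace Pool.Agent.Work.MP_569662_co

open Finset

set_option linter.unusedSectionVars false

/-- The properties of the word attached to a sweep. -/
structure Fine {V : Type} [Fintype V] [DecidableEq V] (lab : V → Bool) (front R : List V)
    (E : List (V × V)) (w : List GO) : Prop where
  valid : ValidG w (2 * front.length + 1)
  spin : R.Nodup → (∀ v ∈ front, v ∉ R) → ∀ (N : ℕ) (c : V → Fin N),
    VG (spinD N) w (spath c front) = cnt N c R E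
  nonneg : (∀ e ∈ E, lab e.1 ≠ lab e.2) → ∀ {H : Type} [DecidableEq H] (D : Datum H), Pos D →
    ∀ l : List H, Good D l → l.length = 2 * front.length + 1 → 0 ≤ sgn lab front l * VG D w l
  pos : (∀ e ∈ E, lab e.1 ≠ lab e.2) → ∀ {H : Type} [DecidableEq H] (D : Datum H), Pos D →
    ∀ (c₀ : H) (s : Bool → H), D.ty c₀ = true → (∀ b, s b ∈ D.N c₀) → s true ≠ s false →
      0 < VG D w (hpath lab c₀ s front)

section helpers

variable {H : Type} [DecidableEq H] (D : Datum H)

lemma good_hpath {V : Type} (lab : V → Bool) (c₀ : H) (s : Bool → H) (hc : D.ty c₀ = true)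
    (hs : ∀ b, s b ∈ D.N c₀) (l : List V) : Good D (hpath lab c₀ s l) := by
  refine ⟨path_hpath D lab c₀ s hs l, ?_⟩
  obtain ⟨t, ht⟩ := exists_hpath lab c₀ s l
  intro u hu
  rw [ht] at hu
  simp at hu
  rw [← hu]; exact hc

/-- Splitting a good list of length `2 (m₁ + m₂) + 1` after `2 m₁` entries. -/
lemma split_good {l : List H} {m₁ m₂ : ℕ} (hlen : l.length = 2 * (m₁ + m₂) + 1) :
    ∃ p u t, l = p ++ u :: t ∧ p.length = 2 * m₁ ∧ t.length = 2 * m₂ := by
  obtain ⟨p, u, t, rfl, hp⟩ := exists_split (l := l) (k := 2 * m₁) (by omega)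
  refine ⟨p, u, t, rfl, hp, ?_⟩
  simp at hlen; omega

lemma good_ty {p t : List H} {u : H} (h : Good D (p ++ u :: t)) (hp : p.length % 2 = 0) :
    D.ty u = true := by
  rw [ty_getElem D p u t h]; simpa using hp

lemma head_append {p t t' : List H} {u : H} : (p ++ u :: t).head? = (p ++ u :: t').head? := by
  cases p <;> simp

end helpers

section cases

variable {V : Type} [Fintype V] [DecidableEq V] (lab : V → Bool)

lemma fine_done : Fine lab [] [] [] [] where
  valid := by simp [ValidG]
  spin := by
    intro _ _ N c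
    have h1 : VG (spinD N) [] (spath c []) = 1 := by simp [VG, spath, spre]
    rw [h1]
    have h2 : cnt N c [] [] = 1 := by
      unfold cnt
      rw [Finset.card_eq_one]
      refine ⟨c, ?_⟩
      ext κ
      simp only [Finset.mem_filter, Finset.mem_univ, true_and, Finset.mem_singleton]
      constructor
      · rintro ⟨h, _⟩; funext v; exact h v (by simp)
      · rintro rfl; simp
    rw [h2]; norm_num
  nonneg := by
    intro _ H _ D _ l _ hl
    have : VG D [] l = 1 := by simp only [VG]; rw [if_pos (by simpa using hl)]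
    rw [this]; simp [sgn]
  pos := by
    intro _ H _ D _ c₀ s _ _ _
    simp [VG, hpath, hpre]

lemma fine_new (l₁ l₂ : List V) (v : V) (R : List V) (E : List (V × V)) (w : List GO)
    (h : Fine lab (l₁ ++ v :: l₂) R E w) :
    Fine lab (l₁ ++ l₂) (v :: R) E (GO.cup (2 * l₁.length) :: w) where
  valid := by
    refine ⟨by simp only [List.length_append]; omega, ?_⟩
    have := h.valid
    simp only [List.length_append, List.length_cons] at this ⊢
    convert this using 1; ring
  spin := by
    intro hR hd N c
    have hvR : v ∉ R := (List.nodup_cons.mp hR).1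
    have hv1 : v ∉ l₁ ++ l₂ := fun hv => hd v hv List.mem_cons_self
    obtain ⟨t, ht⟩ := exists_spath c l₂
    have e1 : spath c (l₁ ++ l₂) = spre c l₁ ++ none :: t := by
      rw [← ht, spath, spre_append, spath, List.append_assoc]
    rw [VG, e1, ← length_spre c l₁, cupF_append]
    have e2 : (spinD N).N none = Finset.univ.map ⟨some, Option.some_injective _⟩ := rfl
    rw [e2, Finset.sum_map, cnt_new N c v R E hvR, Nat.cast_sum]
    refine Finset.sum_congr rfl fun a _ => ?_
    have e3 : (spinD N).κ none (some a) = 1 := rfl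
    simp only [Function.Embedding.coeFn_mk]
    rw [e3, one_mul]
    have hv1' : v ∉ l₁ := fun hh => hv1 (List.mem_append_left _ hh)
    have hv2' : v ∉ l₂ := fun hh => hv1 (List.mem_append_right _ hh)
    have e4 : spre c l₁ ++ none :: some a :: none :: t
        = spath (Function.update c v a) (l₁ ++ v :: l₂) := by
      rw [spath, spre_append, spre, Function.update_self, ← ht, spath]
      rw [spre_congr (Function.update c v a) c l₁, spre_congr (Function.update c v a) c l₂]
      · simp
      · intro u hu; rw [Function.update_of_ne]; rintro rfl; exact hv2' hu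
      · intro u hu; rw [Function.update_of_ne]; rintro rfl; exact hv1' hu
    rw [e4]
    apply h.spin (List.nodup_cons.mp hR).2
    intro u hu
    simp only [List.mem_append, List.mem_cons] at hu
    rcases hu with hu | rfl | hu
    · exact fun hh => hd u (List.mem_append_left _ hu) (List.mem_cons_of_mem _ hh)
    · exact hvR
    · exact fun hh => hd u (List.mem_append_right _ hu) (List.mem_cons_of_mem _ hh)
  nonneg := by
    intro hE H _ D hD l hl hlen
    obtain ⟨p, u, t, rfl, hp, ht⟩ := split_good (m₁ := l₁.length) (m₂ := l₂.length)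
      (by rw [hlen]; simp)
    rw [VG, ← hp, cupF_append, Finset.mul_sum]
    have htu : D.ty u = true := good_ty D hl (by omega)
    refine Finset.sum_nonneg fun x hx => ?_
    have h1 := h.nonneg hE D hD (p ++ u :: x :: u :: t) ?_ ?_
    · rw [sgn_append lab _ _ _ _ _ hp, sgn_cons, eps_self, one_mul,
        ← sgn_append lab _ _ _ _ _ hp] at h1
      have h2 := hD.kpos htu hx
      nlinarith [mul_nonneg h2.le h1]
    · refine ⟨?_, ?_⟩
      · have := hl.1
        rw [path_append_cons] at this ⊢
        exact ⟨this.1, hx, D.symm hx, this.2⟩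
      · rw [head_append (t' := t)]; exact hl.2
    · simp [hp, ht]; ring
  pos := by
    intro hE H _ D hD c₀ s hc hs hne
    obtain ⟨t, ht⟩ := exists_hpath lab c₀ s l₂
    have e1 : hpath lab c₀ s (l₁ ++ l₂) = hpre lab c₀ s l₁ ++ c₀ :: t := by
      rw [← ht, hpath, hpre_append, hpath, List.append_assoc]
    have hp := length_hpre lab c₀ s l₁
    have hg := good_hpath D lab c₀ s hc hs (l₁ ++ l₂)
    rw [VG, e1, ← hp, cupF_append]
    rw [e1] at hg
    have hsg : sgn lab (l₁ ++ l₂) (hpre lab c₀ s l₁ ++ c₀ :: t) = 1 := by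
      rw [← e1]; exact sgn_hpre lab c₀ s _
    refine Finset.sum_pos' (fun x hx => ?_) ⟨s (lab v), hs _, ?_⟩
    · have h1 := h.nonneg hE D hD (hpre lab c₀ s l₁ ++ c₀ :: x :: c₀ :: t) ?_ ?_
      · rw [sgn_append lab _ _ _ _ _ hp, sgn_cons, eps_self, one_mul,
          ← sgn_append lab _ _ _ _ _ hp, hsg, one_mul] at h1
        exact mul_nonneg (hD.kpos hc hx).le h1
      · refine ⟨?_, ?_⟩
        · have := hg.1
          rw [path_append_cons] at this ⊢
          exact ⟨this.1, hx, D.symm hx, this.2⟩
        · rw [head_append (t' := t)]; exact hg.2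
      · have h3 : (hpath lab c₀ s l₂).length = 2 * l₂.length + 1 := by simp [hpath, length_hpre]
        rw [ht] at h3
        simp at h3
        simp [hp, h3]; ring
    · have h1 := h.pos hE D hD c₀ s hc hs hne
      have e4 : hpath lab c₀ s (l₁ ++ v :: l₂)
          = hpre lab c₀ s l₁ ++ c₀ :: s (lab v) :: c₀ :: t := by
        rw [hpath, hpre_append, hpre, ← ht, hpath]; simp
      rw [e4] at h1
      exact mul_pos (hD.kpos hc (hs _)) h1

/-- Sign bookkeeping for a vertex height having at most two neighbours. -/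
lemma eps_mul {H : Type} [DecidableEq H] {D : Datum H} (hD : Pos D) (b : Bool) {a x y z : H}
    (ha : D.ty a = false) (hx : x ∈ D.N a) (hy : y ∈ D.N a) (hz : z ∈ D.N a) :
    eps b x y * eps b y z = eps b x z := by
  cases b with
  | false => simp [eps]
  | true =>
    by_cases h1 : x = y
    · subst h1; simp [eps]
    · by_cases h2 : y = z
      · subst h2; simp [eps]
      · have h3 : z = x := by
          rcases hD.two ha hx hy hz h1 with h | h
          · exact h
          · exact absurd h.symm h2
        subst h3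
        simp [eps, h1, h2]

lemma fine_dup (l₁ l₂ : List V) (v : V) (R : List V) (E : List (V × V)) (w : List GO)
    (h : Fine lab (l₁ ++ v :: v :: l₂) R E w) :
    Fine lab (l₁ ++ v :: l₂) R E (GO.cup (2 * l₁.length + 1) :: w) where
  valid := by
    refine ⟨by simp only [List.length_append, List.length_cons]; omega, ?_⟩
    have := h.valid
    simp only [List.length_append, List.length_cons] at this ⊢
    convert this using 1; ring
  spin := by
    intro hR hd N c
    obtain ⟨t, ht⟩ := exists_spath c l₂
    have e1 : spath c (l₁ ++ v :: l₂) = (spre c l₁ ++ [none]) ++ some (c v) :: none :: t := by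
      rw [← ht, spath, spre_append, spath, spre]; simp
    have hp : (spre c l₁ ++ [none]).length = 2 * l₁.length + 1 := by simp [length_spre]
    rw [VG, e1, ← hp, cupF_append]
    have e2 : (spinD N).N (some (c v)) = {none} := rfl
    have e3 : (spinD N).κ (some (c v)) none = 1 := rfl
    rw [e2, Finset.sum_singleton, e3, one_mul]
    have e4 : (spre c l₁ ++ [none]) ++ some (c v) :: none :: some (c v) :: none :: t
        = spath c (l₁ ++ v :: v :: l₂) := by
      rw [← ht]; simp [spath, spre_append, spre]
    rw [e4]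
    apply h.spin hR
    intro u hu
    apply hd
    simpa using hu
  nonneg := by
    intro hE H _ D hD l hl hlen
    obtain ⟨p, b, t', rfl, hp, ht'⟩ := split_good (m₁ := l₁.length) (m₂ := l₂.length + 1)
      (by rw [hlen]; simp)
    rcases t' with _ | ⟨a, _ | ⟨b', t⟩⟩
    · simp at ht'
    · simp at ht'; omega
    have hlt : t.length = 2 * l₂.length := by simp at ht'; omega
    have hp1 : (p ++ [b]).length = 2 * l₁.length + 1 := by simp [hp]
    have hb : D.ty b = true := good_ty D hl (by omega)
    have hpath := hl.1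
    rw [path_append_cons] at hpath
    obtain ⟨hpa, hab, hba, hpt⟩ := hpath
    have ha : D.ty a = false := by rw [D.ty_ne hab, hb]; rfl
    have e0 : VG D (GO.cup (2 * l₁.length + 1) :: w) (p ++ b :: a :: b' :: t)
        = ∑ x ∈ D.N a, D.κ a x * VG D w (p ++ b :: a :: x :: a :: b' :: t) := by
      rw [VG]
      have := cupF_append D (VG D w) (p ++ [b]) a (b' :: t)
      rw [hp1] at this
      simpa using this
    rw [e0, Finset.mul_sum]
    refine Finset.sum_nonneg fun x hx => ?_
    have h1 := h.nonneg hE D hD (p ++ b :: a :: x :: a :: b' :: t) ?_ ?_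
    · rw [sgn_append lab _ _ _ _ _ hp, sgn_cons, sgn_cons, ← mul_assoc (eps (lab v) b x),
        eps_mul hD (lab v) ha (D.symm hab) hx hba, ← sgn_cons lab v l₂ b a b' t,
        ← sgn_append lab _ _ _ _ _ hp] at h1
      rw [hD.k1 ha hx, one_mul]
      exact h1
    · refine ⟨?_, ?_⟩
      · rw [path_append_cons]
        exact ⟨hpa, hab, hx, D.symm hx, hba, hpt⟩
      · rw [head_append (t' := a :: b' :: t)]; exact hl.2
    · simp [hp, hlt]; ring
  pos := by
    intro hE H _ D hD c₀ s hc hs hne
    obtain ⟨t, ht⟩ := exists_hpath lab c₀ s l₂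
    have e1 : hpath lab c₀ s (l₁ ++ v :: l₂) = hpre lab c₀ s l₁ ++ c₀ :: s (lab v) :: c₀ :: t := by
      rw [hpath, hpre_append, hpre, ← ht, hpath]; simp
    have hp := length_hpre lab c₀ s l₁
    have hg := good_hpath D lab c₀ s hc hs (l₁ ++ v :: l₂)
    have hsg : sgn lab (l₁ ++ v :: l₂) (hpre lab c₀ s l₁ ++ c₀ :: s (lab v) :: c₀ :: t) = 1 := by
      rw [← e1]; exact sgn_hpre lab c₀ s _
    rw [e1] at hg ⊢
    have hp1 : (hpre lab c₀ s l₁ ++ [c₀]).length = 2 * l₁.length + 1 := by simp [hp]
    have ha : D.ty (s (lab v)) = false := by rw [D.ty_ne (hs _), hc]; rfl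
    have hpath := hg.1
    rw [path_append_cons] at hpath
    obtain ⟨hpa, hab, hba, hpt⟩ := hpath
    have e0 : VG D (GO.cup (2 * l₁.length + 1) :: w)
          (hpre lab c₀ s l₁ ++ c₀ :: s (lab v) :: c₀ :: t)
        = ∑ x ∈ D.N (s (lab v)), D.κ (s (lab v)) x *
            VG D w (hpre lab c₀ s l₁ ++ c₀ :: s (lab v) :: x :: s (lab v) :: c₀ :: t) := by
      rw [VG]
      have := cupF_append D (VG D w) (hpre lab c₀ s l₁ ++ [c₀]) (s (lab v)) (c₀ :: t)
      rw [hp1] at this
      simpa using this
    rw [e0]
    have h3 : t.length = 2 * l₂.length := by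
      have h3 : (hpath lab c₀ s l₂).length = 2 * l₂.length + 1 := by simp [hpath, length_hpre]
      rw [ht] at h3
      simpa using h3
    refine Finset.sum_pos' (fun x hx => ?_) ⟨c₀, hba, ?_⟩
    · have h1 := h.nonneg hE D hD
        (hpre lab c₀ s l₁ ++ c₀ :: s (lab v) :: x :: s (lab v) :: c₀ :: t) ?_ ?_
      · rw [sgn_append lab _ _ _ _ _ hp, sgn_cons, sgn_cons, ← mul_assoc (eps (lab v) c₀ x),
          eps_mul hD (lab v) ha hba hx hba, ← sgn_cons lab v l₂ c₀ (s (lab v)) c₀ t,
          ← sgn_append lab _ _ _ _ _ hp, hsg, one_mul] at h1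
        rw [hD.k1 ha hx, one_mul]
        exact h1
      · refine ⟨?_, ?_⟩
        · rw [path_append_cons]
          exact ⟨hpa, hab, hx, D.symm hx, hba, hpt⟩
        · rw [head_append (t' := s (lab v) :: c₀ :: t)]; exact hg.2
      · simp [hp, h3]; ring
    · have h1 := h.pos hE D hD c₀ s hc hs hne
      have e4 : hpath lab c₀ s (l₁ ++ v :: v :: l₂)
          = hpre lab c₀ s l₁ ++ c₀ :: s (lab v) :: c₀ :: s (lab v) :: c₀ :: t := by
        rw [hpath, hpre_append, hpre, hpre, ← ht, hpath]; simp
      rw [e4] at h1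
      rw [hD.k1 ha hba, one_mul]
      exact h1

lemma fine_forget (l₁ l₂ : List V) (v : V) (R : List V) (E : List (V × V)) (w : List GO)
    (h : Fine lab (l₁ ++ l₂) R E w) :
    Fine lab (l₁ ++ v :: l₂) R E (GO.cap (2 * l₁.length) :: w) where
  valid := by
    refine ⟨by simp only [List.length_append, List.length_cons]; omega, ?_⟩
    have := h.valid
    simp only [List.length_append, List.length_cons] at this ⊢
    convert this using 1
    omega
  spin := by
    intro hR hd N c
    obtain ⟨t, ht⟩ := exists_spath c l₂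
    have e1 : spath c (l₁ ++ v :: l₂) = spre c l₁ ++ none :: some (c v) :: none :: t := by
      rw [← ht, spath, spre_append, spath, spre]; simp
    rw [VG, e1, ← length_spre c l₁, capF_append, if_pos rfl]
    have e3 : (spinD N).lam none (some (c v)) = 1 := rfl
    rw [e3, one_mul]
    have e4 : spre c l₁ ++ none :: t = spath c (l₁ ++ l₂) := by
      rw [← ht]; simp [spath, spre_append]
    rw [e4]
    apply h.spin hR
    intro u hu
    apply hd
    simp only [List.mem_append, List.mem_cons] at hu ⊢
    tauto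
  nonneg := by
    intro hE H _ D hD l hl hlen
    obtain ⟨p, b, t', rfl, hp, ht'⟩ := split_good (m₁ := l₁.length) (m₂ := l₂.length + 1)
      (by rw [hlen]; simp)
    rcases t' with _ | ⟨a, _ | ⟨b', t⟩⟩
    · simp at ht'
    · simp at ht'; omega
    have hlt : t.length = 2 * l₂.length := by simp at ht'; omega
    have hb : D.ty b = true := good_ty D hl (by omega)
    have hpath := hl.1
    rw [path_append_cons] at hpath
    obtain ⟨hpa, hab, hba, hpt⟩ := hpath
    rw [VG, ← hp, capF_append]
    split_ifs with hbb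
    · subst hbb
      rw [hD.lpos hb hab, one_mul]
      have h1 := h.nonneg hE D hD (p ++ b :: t) ?_ ?_
      · rw [sgn_append lab _ _ _ _ _ hp, sgn_cons, eps_self, one_mul,
          ← sgn_append lab _ _ _ _ _ hp]
        exact h1
      · refine ⟨?_, ?_⟩
        · rw [path_append_cons]; exact ⟨hpa, hpt⟩
        · rw [head_append (t' := a :: b :: t)]; exact hl.2
      · simp [hp, hlt]; ring
    · simp
  pos := by
    intro hE H _ D hD c₀ s hc hs hne
    obtain ⟨t, ht⟩ := exists_hpath lab c₀ s l₂
    have e1 : hpath lab c₀ s (l₁ ++ v :: l₂) = hpre lab c₀ s l₁ ++ c₀ :: s (lab v) :: c₀ :: t := by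
      rw [hpath, hpre_append, hpre, ← ht, hpath]; simp
    have hp := length_hpre lab c₀ s l₁
    rw [VG, e1, ← hp, capF_append, if_pos rfl, hD.lpos hc (hs _), one_mul]
    have h1 := h.pos hE D hD c₀ s hc hs hne
    have e4 : hpath lab c₀ s (l₁ ++ l₂) = hpre lab c₀ s l₁ ++ c₀ :: t := by
      rw [hpath, hpre_append, ← ht, hpath]; simp
    rw [e4] at h1
    exact h1

/-- The elementary sign changes when the middle height changes. -/
lemma eps_ne {H : Type} [DecidableEq H] {D : Datum H} (hD : Pos D) {a x y z : H}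
    (ha : D.ty a = false) (hx : x ∈ D.N a) (hy : y ∈ D.N a) (hz : z ∈ D.N a) (hyz : y ≠ z) :
    eps true x y = - eps true x z := by
  by_cases h1 : x = y
  · subst h1; simp [eps, hyz]
  · by_cases h2 : x = z
    · subst h2; simp [eps, h1]
    · exfalso
      rcases hD.two ha hx hy hz h1 with h | h
      · exact h2 h.symm
      · exact hyz h.symm

lemma eps_comm {H : Type} [DecidableEq H] (b : Bool) (x y : H) : eps b x y = eps b y x := by
  simp only [eps, ne_comm]

lemma eps_edge {H : Type} [DecidableEq H] {D : Datum H} (hD : Pos D) {p q : Bool} (hpq : p ≠ q)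
    {a b x y b' : H} (ha : D.ty a = false) (hb : b ∈ D.N a) (hx : x ∈ D.N a) (hy : y ∈ D.N a)
    (hb' : b' ∈ D.N a) (hxy : x ≠ y) :
    eps p b x * eps q x b' = - (eps p b y * eps q y b') := by
  cases p <;> cases q
  · exact absurd rfl hpq
  · rw [eps_false, eps_false, eps_comm true x b', eps_comm true y b',
      eps_ne hD ha hb' hx hy hxy]; ring
  · rw [eps_false, eps_false, eps_ne hD ha hb hx hy hxy]; ring
  · exact absurd rfl hpq

lemma fine_edge (l₁ l₂ : List V) (u v : V) (R : List V) (E : List (V × V)) (w : List GO)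
    (h : Fine lab (l₁ ++ u :: v :: l₂) R E w) :
    Fine lab (l₁ ++ u :: v :: l₂) R ((u, v) :: E) (GO.edge (2 * l₁.length + 1) :: w) where
  valid := by
    refine ⟨by simp only [List.length_append, List.length_cons]; omega, h.valid⟩
  spin := by
    intro hR hd N c
    obtain ⟨t, ht⟩ := exists_spath c l₂
    have e1 : spath c (l₁ ++ u :: v :: l₂)
        = (spre c l₁ ++ [none]) ++ some (c u) :: none :: some (c v) :: none :: t := by
      rw [← ht]; simp [spath, spre_append, spre]
    have hp : (spre c l₁ ++ [none]).length = 2 * l₁.length + 1 := by simp [length_spre]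
    have hu : u ∉ R := hd u (by simp)
    have hv : v ∉ R := hd v (by simp)
    rw [cnt_edge N c u v R E hu hv, VG, ← h.spin hR hd N c, e1, ← hp, capF_append]
    congr 1
    by_cases hc : c u = c v
    · rw [if_pos (by rw [hc]), if_pos hc, cupF_append]
      have e2 : (spinD N).N (some (c u)) = {none} := rfl
      have e3 : (spinD N).κ (some (c u)) none = 1 := rfl
      have e4 : (spinD N).lam (some (c u)) none = 1 := rfl
      rw [e2, Finset.sum_singleton, e3, e4, one_mul, one_mul, hc]
    · rw [if_neg (by simpa using hc), if_neg hc]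
  nonneg := by
    intro hE H _ D hD l hl hlen
    have hE' : ∀ e ∈ E, lab e.1 ≠ lab e.2 := fun e he => hE e (List.mem_cons_of_mem _ he)
    have huv : lab u ≠ lab v := hE (u, v) List.mem_cons_self
    obtain ⟨p, b, t', rfl, hp, ht'⟩ := split_good (m₁ := l₁.length) (m₂ := l₂.length + 2)
      (by rw [hlen]; simp)
    rcases t' with _ | ⟨a, _ | ⟨y, _ | ⟨a', _ | ⟨b', t⟩⟩⟩⟩
    · simp at ht'
    · simp at ht'; omega
    · simp at ht'
    · simp at ht'; omega
    have hlt : t.length = 2 * l₂.length := by simp at ht'; omega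
    have hp1 : (p ++ [b]).length = 2 * l₁.length + 1 := by simp [hp]
    have hb : D.ty b = true := good_ty D hl (by omega)
    have hpath := hl.1
    rw [path_append_cons] at hpath
    obtain ⟨hpa, hab, hya, hay, hba', hpt⟩ := hpath
    have ha : D.ty a = false := by rw [D.ty_ne hab, hb]; rfl
    have h0 := h.nonneg hE' D hD _ hl hlen
    have e0 : VG D (GO.edge (2 * l₁.length + 1) :: w) (p ++ b :: a :: y :: a' :: b' :: t)
        = VG D w (p ++ b :: a :: y :: a' :: b' :: t) -
          (if a = a' then D.lam a y * ∑ x ∈ D.N a,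
            D.κ a x * VG D w (p ++ b :: a :: x :: a :: b' :: t) else 0) := by
      rw [VG]
      congr 1
      have h1 := capF_append D (cupF D (2 * l₁.length + 1) (VG D w)) (p ++ [b]) a y a' (b' :: t)
      rw [hp1] at h1
      have h2 := cupF_append D (VG D w) (p ++ [b]) a (b' :: t)
      rw [hp1] at h2
      rw [h2] at h1
      simpa using h1
    rw [e0]
    by_cases haa : a = a'
    swap
    · rw [if_neg haa, sub_zero]; exact h0
    subst haa
    rw [if_pos rfl]
    -- separate the term `x = y`
    have hsum : ∑ x ∈ D.N a, D.κ a x * VG D w (p ++ b :: a :: x :: a :: b' :: t)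
        = VG D w (p ++ b :: a :: y :: a :: b' :: t) +
          ∑ x ∈ (D.N a).erase y, VG D w (p ++ b :: a :: x :: a :: b' :: t) := by
      rw [← Finset.add_sum_erase _ _ hya, hD.k1 ha hya, one_mul]
      congr 1
      refine Finset.sum_congr rfl fun x hx => ?_
      rw [hD.k1 ha (Finset.mem_of_mem_erase hx), one_mul]
    rw [hsum]
    have hrest : 0 ≤ - (sgn lab (l₁ ++ u :: v :: l₂) (p ++ b :: a :: y :: a :: b' :: t) *
        ∑ x ∈ (D.N a).erase y, VG D w (p ++ b :: a :: x :: a :: b' :: t)) := by
      rw [Finset.mul_sum, ← Finset.sum_neg_distrib]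
      refine Finset.sum_nonneg fun x hx => ?_
      have hxN := Finset.mem_of_mem_erase hx
      have hxy := Finset.ne_of_mem_erase hx
      have h1 := h.nonneg hE' D hD (p ++ b :: a :: x :: a :: b' :: t) ?_ ?_
      · have e5 : sgn lab (l₁ ++ u :: v :: l₂) (p ++ b :: a :: x :: a :: b' :: t)
            = - sgn lab (l₁ ++ u :: v :: l₂) (p ++ b :: a :: y :: a :: b' :: t) := by
          rw [sgn_append lab _ _ _ _ _ hp, sgn_append lab _ _ _ _ _ hp, sgn_cons, sgn_cons,
            sgn_cons, sgn_cons, ← mul_assoc (eps (lab u) b x), ← mul_assoc (eps (lab u) b y),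
            eps_edge hD huv ha (D.symm hab) hxN hya hba' hxy]
          ring
        rw [e5] at h1
        linarith
      · refine ⟨?_, ?_⟩
        · rw [path_append_cons]
          exact ⟨hpa, hab, hxN, D.symm hxN, hba', hpt⟩
        · rw [head_append (t' := a :: y :: a :: b' :: t)]; exact hl.2
      · simpa using hlen
    have hl0 := hD.l0 ha hya
    have hl1 := hD.l1 ha hya
    nlinarith [mul_nonneg (sub_nonneg.mpr hl1) h0, mul_nonneg hl0 hrest]
  pos := by
    intro hE H _ D hD c₀ s hc hs hne
    have hE' : ∀ e ∈ E, lab e.1 ≠ lab e.2 := fun e he => hE e (List.mem_cons_of_mem _ he)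
    have huv : lab u ≠ lab v := hE (u, v) List.mem_cons_self
    obtain ⟨t, ht⟩ := exists_hpath lab c₀ s l₂
    have hp1 : (hpre lab c₀ s l₁ ++ [c₀]).length = 2 * l₁.length + 1 := by simp [length_hpre]
    have e1 : hpath lab c₀ s (l₁ ++ u :: v :: l₂)
        = (hpre lab c₀ s l₁ ++ [c₀]) ++ s (lab u) :: c₀ :: s (lab v) :: c₀ :: t := by
      rw [← ht]; simp [hpath, hpre_append, hpre]
    have h1 := h.pos hE' D hD c₀ s hc hs hne
    rw [e1] at h1
    rw [VG, e1, ← hp1, capF_append, if_neg, sub_zero]
    · exact h1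
    · intro hh
      cases h2 : lab u <;> cases h3 : lab v <;> rw [h2, h3] at huv hh
      · exact huv rfl
      · exact hne hh.symm
      · exact hne hh
      · exact huv rfl

/-- Every sweep comes with a word. -/
theorem exists_fine (front R : List V) (E : List (V × V)) (h : Sweep front R E) :
    ∃ w, Fine lab front R E w := by
  induction h with
  | done => exact ⟨[], fine_done lab⟩
  | new l₁ l₂ v R E _ ih => obtain ⟨w, hw⟩ := ih; exact ⟨_, fine_new lab l₁ l₂ v R E w hw⟩
  | dup l₁ l₂ v R E _ ih => obtain ⟨w, hw⟩ := ih; exact ⟨_, fine_dup lab l₁ l₂ v R E w hw⟩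
  | forget l₁ l₂ v R E _ ih => obtain ⟨w, hw⟩ := ih; exact ⟨_, fine_forget lab l₁ l₂ v R E w hw⟩
  | edge l₁ l₂ u v R E _ ih => obtain ⟨w, hw⟩ := ih; exact ⟨_, fine_edge lab l₁ l₂ u v R E w hw⟩

end cases

end Pool.Agent.Work.MP_569662_co
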