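import Mathlib
import Pool.Agent.Work.MP_569662_co.Main

/-!
# Height data
-/

namespace Pool.Agent.Work.MP_569662_co

open Finset

set_option linter.unusedSectionVars false

/-- The hypotheses on the weights `S` and the set `ok` of allowed heights. -/
structure HW (δ : ℝ) (ok : ℕ → Prop) (S : ℕ → ℝ) : Prop where
  ok0 : ¬ ok 0
  zero : S 0 = 0
  rec' : ∀ n, S n + S (n + 2) = δ * S (n + 1)
  pos : ∀ n, ok n → 0 < S n
  up : ∀ n, ok n → ¬ ok (n + 1) → S (n + 1) = 0
  down : ∀ n, ok (n + 1) → ¬ ok n → S n = 0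
  δpos : 0 < δ

variable {δ : ℝ} {ok : ℕ → Prop} [DecidablePred ok] {S : ℕ → ℝ}

/-- The neighbours of a height. -/
def nbr (ok : ℕ → Prop) [DecidablePred ok] (u : ℕ) : Finset ℕ :=
  ({u - 1, u + 1} : Finset ℕ).filter ok

lemma HW.sum_nbr (h : HW δ ok S) {u : ℕ} (hu : ok u) : ∑ x ∈ nbr ok u, S x = δ * S u := by
  obtain ⟨n, rfl⟩ : ∃ n, u = n + 1 := by
    cases u with
    | zero => exact absurd hu h.ok0
    | succ n => exact ⟨n, rfl⟩
  rw [nbr, Finset.sum_filter, Nat.add_sub_cancel, Finset.sum_pair (by omega)]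
  have h1 : (if ok n then S n else 0) = S n := by
    split_ifs with h1
    · rfl
    · rw [h.down n hu h1]
  have h2 : (if ok (n + 1 + 1) then S (n + 1 + 1) else 0) = S (n + 1 + 1) := by
    split_ifs with h1
    · rfl
    · rw [h.up (n + 1) hu h1]
  rw [h1, h2]
  exact h.rec' n

lemma mem_nbr (h : HW δ ok S) {u x : ℕ} (hu : ok u) :
    x ∈ nbr ok u ↔ (x + 1 = u ∨ x = u + 1) ∧ ok x := by
  have : u ≠ 0 := by rintro rfl; exact h.ok0 hu
  simp only [nbr, Finset.mem_filter, Finset.mem_insert, Finset.mem_singleton]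
  constructor
  · rintro ⟨h1 | h1, h2⟩
    · exact ⟨Or.inl (by omega), h2⟩
    · exact ⟨Or.inr h1, h2⟩
  · rintro ⟨h1 | h1, h2⟩
    · exact ⟨Or.inl (by omega), h2⟩
    · exact ⟨Or.inr h1, h2⟩

/-- The height datum. -/
noncomputable def heightD (h : HW δ ok S) : Datum {n : ℕ // ok n} where
  N := fun u => (nbr ok u.1).subtype ok
  κ := fun u x => if Even u.1 then δ * S x.1 / S u.1 else 1
  lam := fun u x => if Even u.1 then 1 else S x.1 / (δ * S u.1)
  ty := fun u => decide (Even u.1)
  q := δ ^ 2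
  symm := by
    rintro ⟨u, hu⟩ ⟨x, hx⟩ hh
    simp only [Finset.mem_subtype, mem_nbr h hu, mem_nbr h hx] at hh ⊢
    exact ⟨by omega, hu⟩
  ty_ne := by
    rintro ⟨u, hu⟩ ⟨x, hx⟩ hh
    simp only [Finset.mem_subtype, mem_nbr h hu] at hh
    have : Even x ↔ ¬ Even u := by
      rcases hh.1 with h1 | h1
      · rw [← h1]; simp [Nat.even_add_one]
      · rw [h1]; simp [Nat.even_add_one]
    simp only [this]
    by_cases h2 : Even u <;> simp [h2]
  zig := by
    rintro ⟨u, hu⟩ ⟨x, hx⟩ hh
    simp only [Finset.mem_subtype, mem_nbr h hu] at hh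
    have hp : Even x ↔ ¬ Even u := by
      rcases hh.1 with h1 | h1
      · rw [← h1]; simp [Nat.even_add_one]
      · rw [h1]; simp [Nat.even_add_one]
    have h1 := h.pos u hu
    have h2 := h.pos x hx
    have h3 := h.δpos
    by_cases h4 : Even u
    · have h5 : ¬ Even x := by rw [hp]; simpa using h4
      simp only [h4, h5, if_true, if_false]
      field_simp
    · have h5 : Even x := by rw [hp]; exact h4
      simp only [h4, h5, if_true, if_false, one_mul]
  loopB := by
    rintro ⟨u, hu⟩ hh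
    have he : Even u := by simpa using hh
    simp only [he, if_true]
    have h1 := h.pos u hu
    have e1 : ∀ x : {n : ℕ // ok n}, δ * S x.1 / S u * (if Even x.1 then (1:ℝ) / 1 else 1) =
      (δ / S u) * S x.1 := by intro x; split_ifs <;> field_simp
    have e2 : ∑ x ∈ (nbr ok u).subtype ok, δ * S x.1 / S u * 1 =
        (δ / S u) * ∑ x ∈ (nbr ok u).subtype ok, S x.1 := by
      rw [Finset.mul_sum]
      refine Finset.sum_congr rfl fun x _ => by ring
    rw [e2]
    have e3 : ∑ x ∈ (nbr ok u).subtype ok, S x.1 = ∑ x ∈ nbr ok u, S x := by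
      rw [Finset.sum_subtype_eq_sum_filter]
      congr 1
      rw [nbr, Finset.filter_filter]
      simp
    rw [e3, h.sum_nbr hu]
    field_simp
  loopA := by
    rintro ⟨u, hu⟩ hh
    have he : ¬ Even u := by simpa using hh
    simp only [he, if_false, one_mul]
    have h1 := h.pos u hu
    have h3 := h.δpos
    have e2 : ∑ x ∈ (nbr ok u).subtype ok, S x.1 / (δ * S u) =
        (1 / (δ * S u)) * ∑ x ∈ (nbr ok u).subtype ok, S x.1 := by
      rw [Finset.mul_sum]
      refine Finset.sum_congr rfl fun x _ => by ring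
    rw [e2]
    have e3 : ∑ x ∈ (nbr ok u).subtype ok, S x.1 = ∑ x ∈ nbr ok u, S x := by
      rw [Finset.sum_subtype_eq_sum_filter]
      congr 1
      rw [nbr, Finset.filter_filter]
      simp
    rw [e3, h.sum_nbr hu]
    field_simp

lemma heightD_pos (h : HW δ ok S) : Pos (heightD h) where
  k1 := by
    rintro ⟨u, hu⟩ x hh _
    have he : ¬ Even u := by simpa [heightD] using hh
    simp [heightD, he]
  kpos := by
    rintro ⟨u, hu⟩ ⟨x, hx⟩ hh _
    have he : Even u := by simpa [heightD] using hh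
    simp only [heightD, he, if_true]
    have h1 := h.pos u hu
    have h2 := h.pos x hx
    have h3 := h.δpos
    positivity
  l0 := by
    rintro ⟨u, hu⟩ ⟨x, hx⟩ hh _
    have he : ¬ Even u := by simpa [heightD] using hh
    simp only [heightD, he, if_false]
    have h1 := h.pos u hu
    have h2 := h.pos x hx
    have h3 := h.δpos
    positivity
  l1 := by
    rintro ⟨u, hu⟩ ⟨x, hx⟩ hh hxu
    have he : ¬ Even u := by simpa [heightD] using hh
    simp only [heightD, he, if_false]
    have h1 := h.pos u hu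
    have h3 := h.δpos
    rw [div_le_one (by positivity), ← h.sum_nbr hu]
    have hxn : x ∈ nbr ok u := by simpa [heightD] using hxu
    exact Finset.single_le_sum (f := S) (fun y hy => (h.pos y (by
      rw [nbr, Finset.mem_filter] at hy; exact hy.2)).le) hxn
  two := by
    rintro ⟨u, hu⟩ ⟨x, hx⟩ ⟨y, hy⟩ ⟨z, hz⟩ _ h1 h2 h3 h4
    simp only [heightD, Finset.mem_subtype, mem_nbr h hu] at h1 h2 h3
    have h5 : x ≠ y := fun hh => h4 (Subtype.ext hh)
    rcases (show z = x ∨ z = y by omega) with h6 | h6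
    · left; exact Subtype.ext h6
    · right; exact Subtype.ext h6

/-! ### Sweeps of a graph -/

/-- `G` is swept by a list `R` of all vertices and a list `E` of all edges. -/
def Swept {V : Type} (G : SimpleGraph V) : Prop :=
  ∃ (R : List V) (E : List (V × V)), Sweep [] R E ∧ R.Nodup ∧ (∀ v, v ∈ R) ∧
    ∀ u v, G.Adj u v ↔ (u, v) ∈ E ∨ (v, u) ∈ E

/-- The value of the chromatic polynomial of a swept bipartite graph is positive whenever there is
a height datum with the heights `1, 2, 3`. -/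
theorem exists_poly_swept {V : Type} [Fintype V] (G : SimpleGraph V) (hG : Swept G)
    (hc : G.Colorable 2) :
    ∃ P : Polynomial ℤ,
      (∀ n : ℕ, 0 < n → P.eval (n : ℤ) = Nat.card (G.Coloring (Fin n))) ∧
      ∀ (δ : ℝ) (ok : ℕ → Prop) (S : ℕ → ℝ), HW δ ok S → ok 1 → ok 2 → ok 3 →
        0 < (P.map (Int.castRingHom ℝ)).eval (δ ^ 2) := by
  classical
  obtain ⟨R, E, hsw, hR, hall, hadj⟩ := hG
  obtain ⟨col⟩ := hc
  set lab : V → Bool := fun v => decide (col v = 0) with hlab
  have hE : ∀ e ∈ E, lab e.1 ≠ lab e.2 := by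
    intro e he
    have h1 : G.Adj e.1 e.2 := (hadj e.1 e.2).mpr (Or.inl he)
    have h2 := col.valid h1
    intro h3
    simp only [hlab, decide_eq_decide] at h3
    apply h2
    have : ∀ a b : Fin 2, (a = 0 ↔ b = 0) → a = b := by decide
    exact this _ _ h3
  obtain ⟨w, hw⟩ := exists_fine lab [] R E hsw
  obtain ⟨P, hP⟩ := exists_poly w (by simpa using hw.valid)
  refine ⟨P, ?_, ?_⟩
  · intro n hn
    haveI : NeZero n := ⟨by omega⟩
    have h1 := hw.spin hR (by simp) n (fun _ => 0)
    have h2 := hP (spinD n) none rfl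
    have h3 : spath (fun _ : V => (0 : Fin n)) [] = [none] := rfl
    rw [h3] at h1
    rw [h1] at h2
    have h4 : (cnt n (fun _ : V => (0 : Fin n)) R E) = Nat.card (G.Coloring (Fin n)) := by
      rw [cnt, ← Fintype.card_subtype, ← Nat.card_eq_fintype_card]
      apply Nat.card_congr
      refine ⟨fun κ => SimpleGraph.Coloring.mk κ.1 ?_, fun c => ⟨c, ?_, ?_⟩, ?_, ?_⟩
      · intro u v huv
        rcases (hadj u v).mp huv with h | h
        · exact κ.2.2 (u, v) h
        · exact (κ.2.2 (v, u) h).symm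
      · intro v hv; exact absurd (hall v) hv
      · intro e he; exact c.valid ((hadj e.1 e.2).mpr (Or.inl he))
      · intro κ; rfl
      · intro c; rfl
    rw [← h4]
    have h5 : (spinD n).q = ((n : ℤ) : ℝ) := by simp [spinD]
    rw [h5, Polynomial.eval_map, Polynomial.eval₂_at_intCast] at h2
    have h6 : ((cnt n (fun _ : V => (0 : Fin n)) R E : ℤ) : ℝ) = ((P.eval (n : ℤ) : ℤ) : ℝ) := by
      simpa using h2
    exact (Int.cast_injective h6).symm
  · intro δ ok S h o1 o2 o3
    have h1 := hP (heightD h) ⟨2, o2⟩ (by simp [heightD])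
    have h2 := hw.pos hE (heightD h) (heightD_pos h) ⟨2, o2⟩
      (fun b => if b then ⟨3, o3⟩ else ⟨1, o1⟩) (by simp [heightD]) ?_ (by simp)
    · have h3 : hpath lab (⟨2, o2⟩ : {n : ℕ // ok n})
        (fun b => if b then ⟨3, o3⟩ else ⟨1, o1⟩) [] = [⟨2, o2⟩] := rfl
      rw [h3, h1] at h2
      exact h2
    · intro b
      cases b
      · simp [heightD, mem_nbr h o2, o1]
      · simp [heightD, mem_nbr h o2, o3]

end Pool.Agent.Work.MP_569662_co
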