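import Mathlib
import Pool.Agent.Work.MP_569662_co.Heights

/-!
# The two families of weights
-/

namespace Pool.Agent.Work.MP_569662_co

/-- Chebyshev type weights. -/
noncomputable def cheb (δ : ℝ) : ℕ → ℝ
  | 0 => 0
  | 1 => 1
  | n + 2 => δ * cheb δ (n + 1) - cheb δ n

lemma cheb_grow {δ : ℝ} (hδ : 2 ≤ δ) (n : ℕ) :
    0 ≤ cheb δ n ∧ cheb δ n + 1 ≤ cheb δ (n + 1) := by
  induction n with
  | zero => simp [cheb]
  | succ n ih =>
    obtain ⟨h1, h2⟩ := ih
    refine ⟨by linarith, ?_⟩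
    have : cheb δ (n + 2) = δ * cheb δ (n + 1) - cheb δ n := rfl
    rw [show n + 1 + 1 = n + 2 from rfl, this]
    nlinarith

lemma hw_large {δ : ℝ} (hδ : 2 ≤ δ) : HW δ (fun n => 1 ≤ n) (cheb δ) where
  ok0 := by simp
  zero := rfl
  rec' := by intro n; simp [cheb]
  pos := by
    intro n hn
    obtain ⟨m, rfl⟩ : ∃ m, n = m + 1 := ⟨n - 1, by omega⟩
    have := cheb_grow hδ m
    linarith
  up := by intro n _ h; exact absurd (Nat.le_add_left 1 n) h
  down := by
    intro n _ h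
    obtain rfl : n = 0 := by omega
    rfl
  δpos := by linarith

lemma hw_beraha {p : ℕ} (hp : 4 ≤ p) :
    HW (2 * Real.cos (Real.pi / p)) (fun n => 1 ≤ n ∧ n < p)
      (fun n => Real.sin (n * (Real.pi / p)) / Real.sin (Real.pi / p)) := by
  have hp0 : (0 : ℝ) < p := by positivity
  have hθ : 0 < Real.pi / p := div_pos Real.pi_pos hp0
  have hθ4 : Real.pi / p ≤ Real.pi / 4 := by
    apply div_le_div_of_nonneg_left Real.pi_pos.le (by norm_num)
    exact_mod_cast hp
  have hsin : 0 < Real.sin (Real.pi / p) :=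
    Real.sin_pos_of_pos_of_lt_pi hθ (by linarith [Real.pi_pos])
  refine ⟨by simp, by simp, ?_, ?_, ?_, ?_, ?_⟩
  · intro n
    have h1 : Real.sin ((n : ℝ) * (Real.pi / p)) + Real.sin (((n + 2 : ℕ) : ℝ) * (Real.pi / p))
        = 2 * Real.cos (Real.pi / p) * Real.sin (((n + 1 : ℕ) : ℝ) * (Real.pi / p)) := by
      have e1 : (n : ℝ) * (Real.pi / p) = ((n + 1 : ℕ) : ℝ) * (Real.pi / p) - Real.pi / p := by
        push_cast; ring
      have e2 : ((n + 2 : ℕ) : ℝ) * (Real.pi / p)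
          = ((n + 1 : ℕ) : ℝ) * (Real.pi / p) + Real.pi / p := by
        push_cast; ring
      rw [e1, e2, Real.sin_sub, Real.sin_add]; ring
    rw [← add_div, h1, mul_div_assoc]
  · rintro n ⟨h1, h2⟩
    apply div_pos _ hsin
    apply Real.sin_pos_of_pos_of_lt_pi
    · have : (0 : ℝ) < n := by exact_mod_cast h1
      positivity
    · have h3 : (n : ℝ) < p := by exact_mod_cast h2
      calc (n : ℝ) * (Real.pi / p) < p * (Real.pi / p) := by
            exact mul_lt_mul_of_pos_right h3 hθ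
        _ = Real.pi := by field_simp
  · rintro n ⟨h1, h2⟩ h3
    have : n + 1 = p := by omega
    have h4 : ((n + 1 : ℕ) : ℝ) * (Real.pi / p) = Real.pi := by
      rw [this]; field_simp
    rw [h4]; simp
  · rintro n ⟨h1, h2⟩ h3
    have : n = 0 := by omega
    subst this; simp
  · have : 0 < Real.cos (Real.pi / p) :=
      Real.cos_pos_of_mem_Ioo ⟨by linarith [Real.pi_pos], by linarith [Real.pi_pos]⟩
    positivity

/-- **Positivity of the chromatic polynomial of swept bipartite graphs.** -/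
theorem swept_pos {V : Type} [Fintype V] (G : SimpleGraph V) (hG : Swept G)
    (hc : G.Colorable 2) :
    ∃ P : Polynomial ℤ,
      (∀ n : ℕ, 0 < n → P.eval (n : ℤ) = Nat.card (G.Coloring (Fin n))) ∧
      (∀ q : ℝ, 4 ≤ q → 0 < (P.map (Int.castRingHom ℝ)).eval q) ∧
      (∀ p : ℕ, 4 ≤ p → 0 < (P.map (Int.castRingHom ℝ)).eval (4 * Real.cos (Real.pi / p) ^ 2)) := by
  classical
  obtain ⟨P, h1, h2⟩ := exists_poly_swept G hG hc
  refine ⟨P, h1, ?_, ?_⟩
  · intro q hq
    have hδ : 2 ≤ Real.sqrt q := by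
      rw [show (2 : ℝ) = Real.sqrt 4 by
        rw [show (4 : ℝ) = 2 ^ 2 by norm_num, Real.sqrt_sq (by norm_num)]]
      exact Real.sqrt_le_sqrt hq
    have := h2 (Real.sqrt q) _ _ (hw_large hδ) (by norm_num) (by norm_num) (by norm_num)
    rwa [Real.sq_sqrt (by linarith)] at this
  · intro p hp
    have := h2 _ _ _ (hw_beraha hp) ⟨le_rfl, by omega⟩ ⟨by norm_num, by omega⟩
      ⟨by norm_num, by omega⟩
    rwa [mul_pow, show (2 : ℝ) ^ 2 = 4 by norm_num] at this

end Pool.Agent.Work.MP_569662_co
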