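import Mathlib
import Pool.Agent.Work.MP_569662_co.Weights

/-!
# Straight line drawings are sweeps
-/

namespace Pool.Agent.Work.MP_569662_co

open Finset

set_option linter.unusedSectionVars false

/-- A straight line plane drawing of `G`: different vertices are at different points, no vertex
lies on an edge other than as an end, and edges without a common end are disjoint. -/
structure IsDrawing {V : Type} (G : SimpleGraph V) (f : V → ℝ × ℝ) : Prop where
  inj : Function.Injective f
  off : ∀ u v w, G.Adj u v → f w ∈ segment ℝ (f u) (f v) → w = u ∨ w = v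
  disj : ∀ u v x y, G.Adj u v → G.Adj x y → u ≠ x → u ≠ y → v ≠ x → v ≠ y →
    Disjoint (segment ℝ (f u) (f v)) (segment ℝ (f x) (f y))

section geometry

variable {V : Type} (G : SimpleGraph V) (X Y : V → ℝ)

/-- Height of the edge from `u` to `w` at abscissa `x`. -/
noncomputable def yAt (u w : V) (x : ℝ) : ℝ := Y u + (Y w - Y u) * ((x - X u) / (X w - X u))

variable {X Y}

lemma yAt_left (u w : V) : yAt X Y u w (X u) = Y u := by simp [yAt]

lemma yAt_right {u w : V} (h : X u < X w) : yAt X Y u w (X w) = Y w := by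
  have : X w - X u ≠ 0 := by linarith
  rw [yAt, div_self this]; ring

lemma mem_seg {u w : V} {x : ℝ} (h : X u < X w) (h1 : X u ≤ x) (h2 : x ≤ X w) :
    ((x, yAt X Y u w x) : ℝ × ℝ) ∈ segment ℝ ((X u, Y u) : ℝ × ℝ) (X w, Y w) := by
  have h3 : 0 < X w - X u := by linarith
  refine ⟨1 - (x - X u) / (X w - X u), (x - X u) / (X w - X u), ?_, ?_, by ring, ?_⟩
  · rw [sub_nonneg, div_le_one h3]; linarith
  · apply div_nonneg <;> linarith
  · ext
    · simp only [Prod.smul_mk, smul_eq_mul, Prod.mk_add_mk]
      field_simp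
      ring
    · simp only [Prod.smul_mk, smul_eq_mul, Prod.mk_add_mk, yAt]
      ring

/-- Two edges with the same left end which meet further right: the nearer right end lies on the
other edge. -/
lemma same_left {u w w' : V} {x : ℝ} (h : X u < X w) (h' : X u < X w') (hx : X u < x)
    (he : yAt X Y u w x = yAt X Y u w' x) (t : ℝ) : yAt X Y u w t = yAt X Y u w' t := by
  have h1 : X w - X u ≠ 0 := by linarith
  have h2 : X w' - X u ≠ 0 := by linarith
  have h3 : x - X u ≠ 0 := by linarith
  have h4 : (Y w - Y u) / (X w - X u) = (Y w' - Y u) / (X w' - X u) := by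
    have e1 : (Y w - Y u) * ((x - X u) / (X w - X u)) = (Y w' - Y u) * ((x - X u) / (X w' - X u)) := by
      simpa [yAt] using he
    have e2 : ((Y w - Y u) / (X w - X u)) * (x - X u) = ((Y w' - Y u) / (X w' - X u)) * (x - X u) := by
      rw [div_mul_eq_mul_div, div_mul_eq_mul_div, ← mul_div_assoc', ← mul_div_assoc'] 
      exact e1
    exact mul_right_cancel₀ h3 e2
  simp only [yAt]
  have e3 : (Y w - Y u) * ((t - X u) / (X w - X u)) = ((Y w - Y u) / (X w - X u)) * (t - X u) := by
    rw [div_mul_eq_mul_div, mul_div_assoc']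
  have e4 : (Y w' - Y u) * ((t - X u) / (X w' - X u)) = ((Y w' - Y u) / (X w' - X u)) * (t - X u) := by
    rw [div_mul_eq_mul_div, mul_div_assoc']
  rw [e3, e4, h4]

lemma yAt_symm {u w : V} (h : X u < X w) (x : ℝ) :
    yAt X Y u w x = Y w + (Y w - Y u) * ((x - X w) / (X w - X u)) := by
  have h1 : X w - X u ≠ 0 := by linarith
  rw [yAt]
  field_simp
  ring

lemma same_right {u u' w : V} {x : ℝ} (h : X u < X w) (h' : X u' < X w) (hx : x < X w)
    (he : yAt X Y u w x = yAt X Y u' w x) (t : ℝ) : yAt X Y u w t = yAt X Y u' w t := by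
  rw [yAt_symm h, yAt_symm h'] at he
  rw [yAt_symm h, yAt_symm h']
  have h1 : X w - X u ≠ 0 := by linarith
  have h2 : X w - X u' ≠ 0 := by linarith
  have h3 : x - X w ≠ 0 := by linarith
  have h4 : (Y w - Y u) / (X w - X u) = (Y w - Y u') / (X w - X u') := by
    have e1 : (Y w - Y u) * ((x - X w) / (X w - X u)) = (Y w - Y u') * ((x - X w) / (X w - X u')) := by
      simpa using he
    have e2 : ((Y w - Y u) / (X w - X u)) * (x - X w) = ((Y w - Y u') / (X w - X u')) * (x - X w) := by
      rw [div_mul_eq_mul_div, div_mul_eq_mul_div, ← mul_div_assoc', ← mul_div_assoc'] 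
      exact e1
    exact mul_right_cancel₀ h3 e2
  have e3 : (Y w - Y u) * ((t - X w) / (X w - X u)) = ((Y w - Y u) / (X w - X u)) * (t - X w) := by
    rw [div_mul_eq_mul_div, mul_div_assoc']
  have e4 : (Y w - Y u') * ((t - X w) / (X w - X u')) = ((Y w - Y u') / (X w - X u')) * (t - X w) := by
    rw [div_mul_eq_mul_div, mul_div_assoc']
  rw [e3, e4, h4]

/-- Distinct edges only meet in common ends. -/
lemma meet {G : SimpleGraph V} (hG : IsDrawing G (fun v => ((X v, Y v) : ℝ × ℝ)))
    {u w u' w' : V} {x : ℝ} (ha : G.Adj u w) (ha' : G.Adj u' w') (h : X u < X w)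
    (h' : X u' < X w') (h1 : X u ≤ x) (h2 : x ≤ X w) (h1' : X u' ≤ x) (h2' : x ≤ X w')
    (hne : (u, w) ≠ (u', w')) (he : yAt X Y u w x = yAt X Y u' w' x) :
    x = X u ∨ x = X w := by
  by_contra hcon
  push Not at hcon
  obtain ⟨hxu, hxw⟩ := hcon
  have hxu' : X u < x := lt_of_le_of_ne h1 (Ne.symm hxu)
  have hxw' : x < X w := lt_of_le_of_ne h2 hxw
  have m1 := mem_seg (Y := Y) h h1 h2
  have m2 := mem_seg (Y := Y) h' h1' h2'
  rw [← he] at m2
  by_cases c1 : u = u'
  · subst c1
    have hww : w ≠ w' := fun hh => hne (by rw [hh])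
    have key := same_left h h' hxu' he
    rcases le_total (X w) (X w') with hl | hl
    · have m3 := mem_seg (Y := Y) h' h.le hl
      rw [← key, yAt_right h] at m3
      rcases hG.off u w' w ha' m3 with hh | hh
      · subst hh; exact lt_irrefl _ h
      · exact hww hh
    · have m3 := mem_seg (Y := Y) h h'.le hl
      rw [key, yAt_right h'] at m3
      rcases hG.off u w w' ha m3 with hh | hh
      · subst hh; exact lt_irrefl _ h'
      · exact hww hh.symm
  by_cases c2 : w = w'
  · subst c2
    have key := same_right h h' hxw' he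
    rcases le_total (X u) (X u') with hl | hl
    · have m3 := mem_seg (Y := Y) h hl h'.le
      rw [key, yAt_left] at m3
      rcases hG.off u w u' ha m3 with hh | hh
      · exact c1 hh.symm
      · subst hh; exact lt_irrefl _ h'
    · have m3 := mem_seg (Y := Y) h' hl h.le
      rw [← key, yAt_left] at m3
      rcases hG.off u' w u ha' m3 with hh | hh
      · exact c1 hh
      · subst hh; exact lt_irrefl _ h
  have c3 : u ≠ w' := by rintro rfl; linarith
  have c4 : w ≠ u' := by rintro rfl; linarith
  have := hG.disj u w u' w' ha ha' c1 c3 c4 c2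
  exact (Set.disjoint_left.mp this) m1 m2

lemma continuous_yAt (u w : V) : Continuous (yAt X Y u w) := by
  unfold yAt; fun_prop

/-- A continuous function without zeros has constant sign on an interval. -/
lemma sign_const {g : ℝ → ℝ} (hg : Continuous g) {a b : ℝ} (hab : a ≤ b)
    (h0 : ∀ x, a ≤ x → x ≤ b → g x ≠ 0) : 0 < g a ↔ 0 < g b := by
  constructor
  · intro ha
    by_contra hb
    push Not at hb
    obtain ⟨x, hx, hx0⟩ := intermediate_value_Icc' hab hg.continuousOn ⟨hb, ha.le⟩
    exact h0 x hx.1 hx.2 hx0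
  · intro hb
    by_contra ha
    push Not at ha
    obtain ⟨x, hx, hx0⟩ := intermediate_value_Icc hab hg.continuousOn ⟨ha, hb.le⟩
    exact h0 x hx.1 hx.2 hx0

/-- Comparison of two edges at two abscissas. -/
lemma compare {G : SimpleGraph V} (hG : IsDrawing G (fun v => ((X v, Y v) : ℝ × ℝ)))
    {e e' : V × V} {a b : ℝ} (ha : G.Adj e.1 e.2) (ha' : G.Adj e'.1 e'.2) (hab : a ≤ b)
    (h1 : X e.1 < a) (h2 : b < X e.2) (h1' : X e'.1 ≤ a) (h2' : b ≤ X e'.2)
    (h' : X e'.1 < X e'.2) (hne : e ≠ e') :
    (yAt X Y e.1 e.2 a < yAt X Y e'.1 e'.2 a ↔ yAt X Y e.1 e.2 b < yAt X Y e'.1 e'.2 b) := by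
  have key := sign_const (g := fun x => yAt X Y e'.1 e'.2 x - yAt X Y e.1 e.2 x)
    ((continuous_yAt _ _).sub (continuous_yAt _ _)) hab ?_
  · simpa [sub_pos] using key
  · intro x hx1 hx2 h0
    have := meet hG ha ha' (x := x) (by linarith) h' (by linarith) (by linarith) (by linarith)
      (by linarith) (by simpa [Prod.ext_iff] using hne) (by linarith)
    rcases this with h | h <;> linarith

lemma compare' {G : SimpleGraph V} (hG : IsDrawing G (fun v => ((X v, Y v) : ℝ × ℝ)))
    {e e' : V × V} {a b : ℝ} (ha : G.Adj e.1 e.2) (ha' : G.Adj e'.1 e'.2) (hab : a ≤ b)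
    (h1 : X e.1 < a) (h2 : b < X e.2) (h1' : X e'.1 ≤ a) (h2' : b ≤ X e'.2)
    (h' : X e'.1 < X e'.2) (hne : e ≠ e') :
    (yAt X Y e'.1 e'.2 a < yAt X Y e.1 e.2 a ↔ yAt X Y e'.1 e'.2 b < yAt X Y e.1 e.2 b) := by
  have key := sign_const (g := fun x => yAt X Y e.1 e.2 x - yAt X Y e'.1 e'.2 x)
    ((continuous_yAt _ _).sub (continuous_yAt _ _)) hab ?_
  · simpa [sub_pos] using key
  · intro x hx1 hx2 h0
    have := meet hG ha ha' (x := x) (by linarith) h' (by linarith) (by linarith) (by linarith)
      (by linarith) (by simpa [Prod.ext_iff] using hne) (by linarith)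
    rcases this with h | h <;> linarith

end geometry

section lists

variable {α : Type}

lemma split_filter (f : α → ℝ) (y : ℝ) (L : List α) (h : L.Pairwise fun a b => f a ≤ f b) :
    L = (L.filter fun a => decide (f a < y)) ++ (L.filter fun a => decide (f a = y)) ++
      (L.filter fun a => decide (y < f a)) := by
  induction L with
  | nil => simp
  | cons a L ih =>
    rw [List.pairwise_cons] at h
    obtain ⟨h1, h2⟩ := h
    have ih := ih h2
    rcases lt_trichotomy (f a) y with h3 | h3 | h3
    · have e1 : ¬ f a = y := ne_of_lt h3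
      have e2 : ¬ y < f a := not_lt.mpr h3.le
      simp only [List.filter_cons, h3, e1, e2, decide_true, decide_false, if_true,
        Bool.false_eq_true, if_false, List.cons_append]
      exact congrArg _ ih
    · have e2 : ¬ y < f a := by rw [h3]; exact lt_irrefl _
      have e1 : ¬ f a < y := by rw [h3]; exact lt_irrefl _
      have e3 : (L.filter fun a => decide (f a < y)) = [] := by
        rw [List.filter_eq_nil_iff]
        intro b hb
        have := h1 b hb
        simp only [decide_eq_true_eq, not_lt]
        linarith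
      rw [e3, List.nil_append] at ih
      simp only [List.filter_cons, h3, lt_irrefl, decide_true, decide_false, if_true,
        Bool.false_eq_true, if_false, e3, List.nil_append, List.cons_append]
      exact congrArg _ ih
    · have e1 : ¬ f a = y := ne_of_gt h3
      have e2 : ¬ f a < y := not_lt.mpr h3.le
      have e3 : (L.filter fun a => decide (f a < y)) = [] := by
        rw [List.filter_eq_nil_iff]
        intro b hb
        have := h1 b hb
        simp only [decide_eq_true_eq, not_lt]
        linarith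
      have e4 : (L.filter fun a => decide (f a = y)) = [] := by
        rw [List.filter_eq_nil_iff]
        intro b hb
        have := h1 b hb
        simp only [decide_eq_true_eq]
        intro hh
        linarith
      rw [e3, e4, List.nil_append, List.nil_append] at ih
      simp only [List.filter_cons, h3, e1, e2, decide_true, decide_false, if_true,
        Bool.false_eq_true, if_false, e3, e4, List.nil_append]
      exact congrArg _ ih

lemma exists_sorted (f : α → ℝ) (s : Finset α) (hf : ∀ a ∈ s, ∀ b ∈ s, f a = f b → a = b) :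
    ∃ l : List α, (∀ a, a ∈ l ↔ a ∈ s) ∧ l.Pairwise fun a b => f a < f b := by
  classical
  induction s using Finset.strongInduction with
  | H s ih =>
    rcases s.eq_empty_or_nonempty with rfl | hs
    · exact ⟨[], by simp, List.Pairwise.nil⟩
    · obtain ⟨m, hm, hmax⟩ := s.exists_max_image f hs
      obtain ⟨l, hl1, hl2⟩ := ih (s.erase m) (Finset.erase_ssubset hm)
        (fun a ha b hb => hf a (Finset.mem_of_mem_erase ha) b (Finset.mem_of_mem_erase hb))
      refine ⟨l ++ [m], ?_, ?_⟩
      · intro a
        simp only [List.mem_append, List.mem_singleton, hl1, Finset.mem_erase]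
        constructor
        · rintro (⟨_, h⟩ | rfl)
          · exact h
          · exact hm
        · intro h
          by_cases ham : a = m
          · exact Or.inr ham
          · exact Or.inl ⟨ham, h⟩
      · rw [List.pairwise_append]
        refine ⟨hl2, by simp, ?_⟩
        intro a ha b hb
        rw [List.mem_singleton] at hb
        subst hb
        have ha' := (hl1 a).mp ha
        rw [Finset.mem_erase] at ha'
        refine lt_of_le_of_ne (hmax a ha'.2) fun hh => ha'.1 (hf a ha'.2 b hm hh)

end lists

section sweeps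

variable {V : Type}

lemma sweep_collapse (A B R : List V) (v : V) (E : List (V × V)) (d : ℕ)
    (h : Sweep (A ++ List.replicate d v ++ B) R E) : Sweep (A ++ v :: B) R E := by
  cases d with
  | zero =>
    apply Sweep.forget
    simpa using h
  | succ d =>
    induction d with
    | zero => simpa using h
    | succ d ih =>
      apply ih
      have e : A ++ List.replicate (d + 1) v ++ B = A ++ v :: (List.replicate d v ++ B) := by
        simp [List.replicate_succ]
      rw [e]
      apply Sweep.dup
      simpa [List.replicate_succ] using h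

lemma sweep_absorb (A B R : List V) (v : V) (E : List (V × V)) (us : List V)
    (h : Sweep (A ++ v :: B) R E) :
    ∃ E', Sweep (A ++ us ++ v :: B) R E' ∧ ∀ e, e ∈ E' ↔ (e.2 = v ∧ e.1 ∈ us) ∨ e ∈ E := by
  induction us using List.reverseRecOn with
  | nil => exact ⟨E, by simpa using h, by simp⟩
  | append_singleton us u ih =>
    obtain ⟨E', h1, h2⟩ := ih
    refine ⟨(u, v) :: E', ?_, ?_⟩
    · have e : A ++ (us ++ [u]) ++ v :: B = (A ++ us) ++ u :: v :: B := by simp
      rw [e]
      apply Sweep.edge
      apply Sweep.forget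
      exact h1
    · intro e
      simp only [List.mem_cons, h2, List.mem_append, Prod.ext_iff]
      tauto

end sweeps

section main

variable {V : Type} [Fintype V] {G : SimpleGraph V} {X Y : V → ℝ}

/-- The edge `e` (directed to the right) crosses the abscissa `c`. -/
def Cross (G : SimpleGraph V) (X : V → ℝ) (c : ℝ) (e : V × V) : Prop :=
  G.Adj e.1 e.2 ∧ X e.1 < c ∧ c < X e.2

lemma exists_cut (X : V → ℝ) (l : List V) (a : ℝ) (h : ∀ w ∈ l, a < X w) :
    ∃ c, a < c ∧ ∀ w ∈ l, c < X w := by
  induction l with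
  | nil => exact ⟨a + 1, by linarith, by simp⟩
  | cons v l ih =>
    obtain ⟨c, hc1, hc2⟩ := ih fun w hw => h w (List.mem_cons_of_mem _ hw)
    have hv := h v List.mem_cons_self
    refine ⟨min c ((a + X v) / 2), ?_, ?_⟩
    · rw [lt_min_iff]; exact ⟨hc1, by linarith⟩
    · intro w hw
      rw [List.mem_cons] at hw
      rcases hw with rfl | hw
      · exact lt_of_le_of_lt (min_le_right _ _) (by linarith)
      · exact lt_of_le_of_lt (min_le_left _ _) (hc2 w hw)

theorem sweep_from (hG : IsDrawing G (fun v => ((X v, Y v) : ℝ × ℝ))) (hX : Function.Injective X)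
    (rest : List V) : ∀ c : ℝ, (∀ w, w ∈ rest ↔ c < X w) → (∀ w, X w ≠ c) →
      rest.Pairwise (fun a b => X a < X b) →
      ∀ L : List (V × V), (∀ e, e ∈ L ↔ Cross G X c e) →
        L.Pairwise (fun e e' => yAt X Y e.1 e.2 c < yAt X Y e'.1 e'.2 c) →
        ∃ E, Sweep (L.map Prod.fst) rest E ∧
          ∀ u w, (u, w) ∈ E ↔ G.Adj u w ∧ X u < X w ∧ c < X w := by
  classical
  induction rest with
  | nil =>
    intro c hc _ _ L hL _
    have hnil : L = [] := by
      rw [List.eq_nil_iff_forall_not_mem]
      intro e he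
      have := ((hL e).mp he).2.2
      exact absurd ((hc e.2).mpr this) (by simp)
    subst hnil
    refine ⟨[], Sweep.done, ?_⟩
    intro u w
    constructor
    · intro h; simp at h
    · rintro ⟨_, _, h⟩
      exact absurd ((hc w).mpr h) (by simp)
  | cons v rest ih =>
    intro c hc hcX hsort L hL hLs
    rw [List.pairwise_cons] at hsort
    obtain ⟨hvr, hsort'⟩ := hsort
    have hcv : c < X v := (hc v).mp List.mem_cons_self
    obtain ⟨c', hvc', hc'r⟩ := exists_cut X rest (X v) hvr
    have hc' : ∀ w, w ∈ rest ↔ c' < X w := by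
      intro w
      refine ⟨hc'r w, fun h => ?_⟩
      have h1 : w ∈ v :: rest := (hc w).mpr (by linarith)
      rw [List.mem_cons] at h1
      rcases h1 with rfl | h1
      · linarith
      · exact h1
    have hcX' : ∀ w, X w ≠ c' := by
      intro w hw
      have h1 : w ∈ v :: rest := (hc w).mpr (by linarith)
      rw [List.mem_cons] at h1
      rcases h1 with rfl | h1
      · linarith
      · have := hc'r w h1; linarith
    -- vertices to the right of `c`
    have hright : ∀ w, c < X w → w = v ∨ c' < X w := by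
      intro w hw
      have h1 : w ∈ v :: rest := (hc w).mpr hw
      rw [List.mem_cons] at h1
      rcases h1 with h1 | h1
      · exact Or.inl h1
      · exact Or.inr (hc'r w h1)
    have hright' : ∀ w, c < X w → X v ≤ X w := by
      intro w hw
      rcases hright w hw with rfl | h
      · exact le_rfl
      · linarith
    set f : V × V → ℝ := fun e => yAt X Y e.1 e.2 (X v) with hf
    -- edges of `L` ending at `v`
    have hin : ∀ e ∈ L, (f e = Y v ↔ e.2 = v) := by
      intro e he
      obtain ⟨h1, h2, h3⟩ := (hL e).mp he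
      constructor
      · intro h4
        have h5 : X e.1 < X e.2 := by linarith
        have m := mem_seg (Y := Y) h5 (x := X v) (by linarith) (hright' _ h3)
        rw [show yAt X Y e.1 e.2 (X v) = Y v from h4] at m
        rcases hG.off e.1 e.2 v h1 m with h6 | h6
        · rw [← h6] at h2; linarith
        · exact h6.symm
      · intro h4
        rw [hf]
        simp only
        rw [← h4]
        exact yAt_right (by linarith)
    -- `L` is weakly sorted at `X v`
    have hLv : L.Pairwise fun e e' => f e ≤ f e' := by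
      have hLs' : L.Pairwise fun e e' =>
          (e ∈ L ∧ e' ∈ L) ∧ yAt X Y e.1 e.2 c < yAt X Y e'.1 e'.2 c := by
        rw [List.pairwise_iff_forall_sublist] at hLs ⊢
        intro a b hab
        refine ⟨⟨?_, ?_⟩, hLs hab⟩
        · exact hab.subset (by simp)
        · exact hab.subset (by simp)
      refine hLs'.imp ?_
      rintro e e' ⟨⟨he, he'⟩, hlt⟩
      obtain ⟨h1, h2, h3⟩ := (hL e).mp he
      obtain ⟨h1', h2', h3'⟩ := (hL e').mp he'
      have hne : e ≠ e' := by rintro rfl; exact lt_irrefl _ hlt
      by_cases h4 : e.2 = v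
      · by_cases h5 : e'.2 = v
        · rw [(hin e he).mpr h4, (hin e' he').mpr h5]
        · have h6 : X v < X e'.2 := lt_of_le_of_ne (hright' _ h3') (fun hh => h5 (hX hh.symm))
          have := (compare' hG h1' h1 hcv.le h2' h6 h2.le (hright' _ h3) (by linarith)
            hne.symm).mp hlt
          exact this.le
      · have h6 : X v < X e.2 := lt_of_le_of_ne (hright' _ h3) (fun hh => h4 (hX hh.symm))
        exact ((compare hG h1 h1' hcv.le h2 h6 h2'.le (hright' _ h3') (by linarith)
          hne).mp hlt).le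
    set L₁ := L.filter (fun e => decide (f e < Y v)) with hL₁
    set I := L.filter (fun e => decide (f e = Y v)) with hI
    set L₂ := L.filter (fun e => decide (Y v < f e)) with hL₂
    have hsplit : L = L₁ ++ I ++ L₂ := split_filter f (Y v) L hLv
    -- the edges starting at `v`
    obtain ⟨O, hO1, hO2⟩ := exists_sorted (fun e : V × V => yAt X Y e.1 e.2 c')
      (Finset.univ.filter fun e : V × V => e.1 = v ∧ G.Adj e.1 e.2 ∧ X v < X e.2) (by
        rintro ⟨a, w⟩ ha ⟨b, w'⟩ hb hab
        simp only [Finset.mem_filter, Finset.mem_univ, true_and] at ha hb hab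
        obtain ⟨rfl, ha1, ha2⟩ := ha
        obtain ⟨rfl, hb1, hb2⟩ := hb
        by_contra hne
        have hw : c' < X w := by
          rcases hright w (by linarith) with h | h
          · subst h; exact absurd ha2 (lt_irrefl _)
          · exact h
        have hw' : c' < X w' := by
          rcases hright w' (by linarith) with h | h
          · subst h; exact absurd hb2 (lt_irrefl _)
          · exact h
        rcases meet hG ha1 hb1 ha2 hb2 hvc'.le hw.le hvc'.le hw'.le hne hab with h | h
        · linarith
        · linarith)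
    have hOm : ∀ e, e ∈ O ↔ e.1 = v ∧ G.Adj e.1 e.2 ∧ X v < X e.2 := by
      intro e; rw [hO1]; simp
    have hO3 : ∀ e ∈ O, c' < X e.2 := by
      intro e he
      obtain ⟨h1, h2, h3⟩ := (hOm e).mp he
      rcases hright e.2 (by linarith) with h | h
      · rw [h] at h3; exact absurd h3 (lt_irrefl _)
      · exact h
    -- properties of the edges in `L₁`, `L₂`
    have hthr : ∀ e ∈ L, f e ≠ Y v → c' < X e.2 := by
      intro e he hne
      obtain ⟨h1, h2, h3⟩ := (hL e).mp he
      rcases hright e.2 h3 with h | h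
      · exact absurd ((hin e he).mpr h) hne
      · exact h
    have hm₁ : ∀ e, e ∈ L₁ ↔ e ∈ L ∧ f e < Y v := by intro e; rw [hL₁]; simp
    have hm₂ : ∀ e, e ∈ L₂ ↔ e ∈ L ∧ Y v < f e := by intro e; rw [hL₂]; simp
    have hmI : ∀ e, e ∈ I ↔ e ∈ L ∧ f e = Y v := by intro e; rw [hI]; simp
    -- comparing two through edges at `X v` and at `c'`
    have cmpO1 : ∀ e ∈ L₁, ∀ o ∈ O, yAt X Y e.1 e.2 c' < yAt X Y o.1 o.2 c' := by
      intro e he o ho
      obtain ⟨heL, hlt⟩ := (hm₁ e).mp he
      obtain ⟨h1, h2, h3⟩ := (hL e).mp heL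
      obtain ⟨g1, g2, g3⟩ := (hOm o).mp ho
      have g4 := hO3 o ho
      have h4 := hthr e heL hlt.ne
      have hne : e ≠ o := by rintro rfl; rw [g1] at h2; linarith
      refine (compare hG h1 g2 hvc'.le (by linarith) h4 (by rw [g1]) g4.le (by rw [g1]; linarith)
        hne).mp ?_
      have e1 : yAt X Y o.1 o.2 (X v) = Y v := by rw [g1]; exact yAt_left _ _
      rw [e1]; exact hlt
    have cmpO2 : ∀ e ∈ L₂, ∀ o ∈ O, yAt X Y o.1 o.2 c' < yAt X Y e.1 e.2 c' := by
      intro e he o ho
      obtain ⟨heL, hlt⟩ := (hm₂ e).mp he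
      obtain ⟨h1, h2, h3⟩ := (hL e).mp heL
      obtain ⟨g1, g2, g3⟩ := (hOm o).mp ho
      have g4 := hO3 o ho
      have h4 := hthr e heL hlt.ne'
      have hne : e ≠ o := by rintro rfl; rw [g1] at h2; linarith
      refine (compare' hG h1 g2 hvc'.le (by linarith) h4 (by rw [g1]) g4.le (by rw [g1]; linarith)
        hne).mp ?_
      have e1 : yAt X Y o.1 o.2 (X v) = Y v := by rw [g1]; exact yAt_left _ _
      rw [e1]; exact hlt
    have cmp12 : ∀ e ∈ L₁, ∀ e' ∈ L₂, yAt X Y e.1 e.2 c' < yAt X Y e'.1 e'.2 c' := by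
      intro e he e' he'
      obtain ⟨heL, hlt⟩ := (hm₁ e).mp he
      obtain ⟨heL', hlt'⟩ := (hm₂ e').mp he'
      obtain ⟨h1, h2, h3⟩ := (hL e).mp heL
      obtain ⟨h1', h2', h3'⟩ := (hL e').mp heL'
      have h4 := hthr e heL hlt.ne
      have h4' := hthr e' heL' hlt'.ne'
      have hne : e ≠ e' := by rintro rfl; linarith
      exact (compare hG h1 h1' hvc'.le (by linarith) h4 (by linarith) h4'.le (by linarith)
        hne).mp (hlt.trans hlt')
    have cmpthr : ∀ e ∈ L, ∀ e' ∈ L, f e ≠ Y v → f e' ≠ Y v →
        yAt X Y e.1 e.2 c < yAt X Y e'.1 e'.2 c → yAt X Y e.1 e.2 c' < yAt X Y e'.1 e'.2 c' := by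
      intro e heL e' heL' hfe hfe' hlt
      obtain ⟨h1, h2, h3⟩ := (hL e).mp heL
      obtain ⟨h1', h2', h3'⟩ := (hL e').mp heL'
      have h4 := hthr e heL hfe
      have h4' := hthr e' heL' hfe'
      have hne : e ≠ e' := by rintro rfl; exact lt_irrefl _ hlt
      exact (compare hG h1 h1' (by linarith) h2 h4 h2'.le h4'.le (by linarith) hne).mp hlt
    have hs₁ : L₁.Pairwise (fun e e' => yAt X Y e.1 e.2 c' < yAt X Y e'.1 e'.2 c') := by
      have h1 : L₁.Pairwise (fun e e' => yAt X Y e.1 e.2 c < yAt X Y e'.1 e'.2 c) :=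
        hLs.filter _
      refine List.Pairwise.imp_of_mem ?_ h1
      intro a b ha hb hab
      obtain ⟨ha1, ha2⟩ := (hm₁ a).mp ha
      obtain ⟨hb1, hb2⟩ := (hm₁ b).mp hb
      exact cmpthr a ha1 b hb1 ha2.ne hb2.ne hab
    have hs₂ : L₂.Pairwise (fun e e' => yAt X Y e.1 e.2 c' < yAt X Y e'.1 e'.2 c') := by
      have h1 : L₂.Pairwise (fun e e' => yAt X Y e.1 e.2 c < yAt X Y e'.1 e'.2 c) :=
        hLs.filter _
      refine List.Pairwise.imp_of_mem ?_ h1
      intro a b ha hb hab
      obtain ⟨ha1, ha2⟩ := (hm₂ a).mp ha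
      obtain ⟨hb1, hb2⟩ := (hm₂ b).mp hb
      exact cmpthr a ha1 b hb1 ha2.ne' hb2.ne' hab
    -- the new front
    have hmem' : ∀ e, e ∈ L₁ ++ O ++ L₂ ↔ Cross G X c' e := by
      intro e
      simp only [List.mem_append]
      constructor
      · rintro ((he | he) | he)
        · obtain ⟨h1, h2⟩ := (hm₁ e).mp he
          obtain ⟨g1, g2, g3⟩ := (hL e).mp h1
          exact ⟨g1, by linarith, hthr e h1 h2.ne⟩
        · obtain ⟨h1, h2, h3⟩ := (hOm e).mp he
          exact ⟨h2, by rw [h1]; exact hvc', hO3 e he⟩
        · obtain ⟨h1, h2⟩ := (hm₂ e).mp he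
          obtain ⟨g1, g2, g3⟩ := (hL e).mp h1
          exact ⟨g1, by linarith, hthr e h1 h2.ne'⟩
      · rintro ⟨h1, h2, h3⟩
        rcases lt_or_ge (X e.1) c with h4 | h4
        · have heL : e ∈ L := (hL e).mpr ⟨h1, h4, by linarith⟩
          rcases lt_trichotomy (f e) (Y v) with h5 | h5 | h5
          · exact Or.inl (Or.inl ((hm₁ e).mpr ⟨heL, h5⟩))
          · exfalso
            have := (hin e heL).mp h5
            rw [this] at h3; linarith
          · exact Or.inr ((hm₂ e).mpr ⟨heL, h5⟩)
        · have h5 : c < X e.1 := lt_of_le_of_ne h4 (fun hh => hcX _ hh.symm)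
          rcases hright e.1 h5 with h6 | h6
          · left; right
            exact (hOm e).mpr ⟨h6, h1, by linarith⟩
          · linarith
    have hsorted' : (L₁ ++ O ++ L₂).Pairwise
        (fun e e' => yAt X Y e.1 e.2 c' < yAt X Y e'.1 e'.2 c') := by
      rw [List.pairwise_append, List.pairwise_append]
      refine ⟨⟨hs₁, hO2, cmpO1⟩, hs₂, ?_⟩
      intro a ha b hb
      rw [List.mem_append] at ha
      rcases ha with ha | ha
      · exact cmp12 a ha b hb
      · exact cmpO2 b hb a ha
    obtain ⟨E', hE1, hE2⟩ := ih c' hc' hcX' hsort' (L₁ ++ O ++ L₂) hmem' hsorted'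
    have hOrep : O.map Prod.fst = List.replicate O.length v := by
      rw [List.eq_replicate_iff]
      refine ⟨by simp, ?_⟩
      intro b hb
      obtain ⟨e, he, rfl⟩ := List.mem_map.mp hb
      exact ((hOm e).mp he).1
    rw [List.map_append, List.map_append, hOrep] at hE1
    have hE3 := sweep_collapse _ _ _ _ _ _ hE1
    obtain ⟨E'', hE4, hE5⟩ := sweep_absorb (L₁.map Prod.fst) (L₂.map Prod.fst) rest v E'
      (I.map Prod.fst) hE3
    refine ⟨E'', ?_, ?_⟩
    · have e1 : L.map Prod.fst = (L₁.map Prod.fst ++ I.map Prod.fst) ++ L₂.map Prod.fst := by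
        conv_lhs => rw [hsplit]
        rw [List.map_append, List.map_append]
      rw [e1]
      exact Sweep.new _ _ _ _ _ hE4
    · intro u w
      rw [hE5, hE2]
      constructor
      · rintro (⟨h1, h2⟩ | ⟨h1, h2, h3⟩)
        · simp only at h1 h2
          subst h1
          obtain ⟨e, he, rfl⟩ := List.mem_map.mp h2
          obtain ⟨g1, g2⟩ := (hmI e).mp he
          obtain ⟨k1, k2, k3⟩ := (hL e).mp g1
          have g3 := (hin e g1).mp g2
          rw [g3] at k1
          exact ⟨k1, by linarith, hcv⟩
        · exact ⟨h1, h2, by linarith⟩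
      · rintro ⟨h1, h2, h3⟩
        rcases hright w h3 with h4 | h4
        · left
          subst h4
          refine ⟨rfl, ?_⟩
          have h5 : X u < c := by
            rcases lt_or_ge (X u) c with h6 | h6
            · exact h6
            · exfalso
              have h7 : c < X u := lt_of_le_of_ne h6 (fun hh => hcX _ hh.symm)
              rcases hright u h7 with h8 | h8
              · subst h8; exact lt_irrefl _ h2
              · linarith
          have h6 : (u, w) ∈ L := (hL (u, w)).mpr ⟨h1, h5, hcv⟩
          exact List.mem_map.mpr ⟨(u, w), (hmI _).mpr ⟨h6, (hin _ h6).mpr rfl⟩, rfl⟩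
        · right
          exact ⟨h1, h2, h4⟩

end main

end Pool.Agent.Work.MP_569662_co
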