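import Mathlib
import Pool.Agent.Work.MP_569662_co.Draw

/-!
# Graphs with straight line drawings are swept
-/

namespace Pool.Agent.Work.MP_569662_co

open Finset

set_option linter.unusedSectionVars false

variable {V : Type} {G : SimpleGraph V}

/-- The shear `(x, y) ↦ (x + ε y, y)`. -/
noncomputable def shear (ε : ℝ) : (ℝ × ℝ) →ₗ[ℝ] (ℝ × ℝ) :=
  LinearMap.prod (LinearMap.fst ℝ ℝ ℝ + ε • LinearMap.snd ℝ ℝ ℝ) (LinearMap.snd ℝ ℝ ℝ)

lemma shear_apply (ε : ℝ) (p : ℝ × ℝ) : shear ε p = (p.1 + ε * p.2, p.2) := by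
  simp [shear]

lemma shear_injective (ε : ℝ) : Function.Injective (shear ε) := by
  intro p q h
  rw [shear_apply, shear_apply, Prod.ext_iff] at h
  obtain ⟨h1, h2⟩ := h
  simp only at h1 h2
  rw [h2] at h1
  exact Prod.ext (by linarith) h2

lemma shear_segment (ε : ℝ) (p q : ℝ × ℝ) :
    segment ℝ (shear ε p) (shear ε q) = shear ε '' segment ℝ p q := by
  have := image_segment ℝ (shear ε).toAffineMap p q
  simpa using this.symm

lemma IsDrawing.shear {f : V → ℝ × ℝ} (h : IsDrawing G f) (ε : ℝ) :
    IsDrawing G (fun v => shear ε (f v)) where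
  inj := (shear_injective ε).comp h.inj
  off := by
    intro u v w ha hm
    rw [shear_segment, (shear_injective ε).mem_set_image] at hm
    exact h.off u v w ha hm
  disj := by
    intro u v x y ha hb h1 h2 h3 h4
    rw [shear_segment, shear_segment, Set.disjoint_image_iff (shear_injective ε)]
    exact h.disj u v x y ha hb h1 h2 h3 h4

lemma exists_shear [Fintype V] {f : V → ℝ × ℝ} (hf : Function.Injective f) :
    ∃ ε : ℝ, Function.Injective fun v => (f v).1 + ε * (f v).2 := by
  classical
  obtain ⟨ε, hε⟩ := Infinite.exists_notMem_finset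
    ((Finset.univ : Finset (V × V)).image fun e =>
      -(((f e.1).1 - (f e.2).1) / ((f e.1).2 - (f e.2).2)))
  refine ⟨ε, ?_⟩
  intro v w hvw
  simp only at hvw
  by_cases h2 : (f v).2 = (f w).2
  · rw [h2] at hvw
    exact hf (Prod.ext (by linarith) h2)
  · exfalso
    apply hε
    rw [Finset.mem_image]
    refine ⟨(v, w), Finset.mem_univ _, ?_⟩
    have h3 : (f v).2 - (f w).2 ≠ 0 := sub_ne_zero.mpr h2
    simp only
    rw [← neg_div, div_eq_iff h3]
    linarith

/-- **Every finite graph with a straight line drawing is swept.** -/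
theorem IsDrawing.swept [Fintype V] {f : V → ℝ × ℝ} (h : IsDrawing G f) : Swept G := by
  classical
  obtain ⟨ε, hε⟩ := exists_shear h.inj
  set X : V → ℝ := fun v => (f v).1 + ε * (f v).2 with hX
  set Y : V → ℝ := fun v => (f v).2 with hY
  have hd : IsDrawing G (fun v => ((X v, Y v) : ℝ × ℝ)) := by
    have := h.shear ε
    simpa only [shear_apply] using this
  obtain ⟨rest, hr1, hr2⟩ := exists_sorted X (Finset.univ : Finset V)
    (fun a _ b _ hab => hε hab)
  obtain ⟨b, hb⟩ := (Set.finite_range X).bddBelow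
  have hb' : ∀ w, b - 1 < X w := by
    intro w
    have := hb (Set.mem_range_self w)
    linarith
  obtain ⟨E, hE1, hE2⟩ := sweep_from hd hε rest (b - 1)
    (fun w => ⟨fun _ => hb' w, fun _ => (hr1 w).mpr (Finset.mem_univ w)⟩)
    (fun w => (hb' w).ne') hr2 []
    (by
      intro e
      simp only [List.not_mem_nil, false_iff]
      rintro ⟨_, h2, _⟩
      exact lt_asymm h2 (hb' e.1))
    List.Pairwise.nil
  refine ⟨rest, E, hE1, ?_, fun v => (hr1 v).mpr (Finset.mem_univ v), ?_⟩
  · refine hr2.imp ?_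
    intro a b hab hh
    rw [hh] at hab
    exact lt_irrefl _ hab
  · intro u v
    constructor
    · intro ha
      rcases lt_trichotomy (X u) (X v) with h1 | h1 | h1
      · exact Or.inl ((hE2 u v).mpr ⟨ha, h1, hb' v⟩)
      · exact absurd (hε h1) ha.ne
      · exact Or.inr ((hE2 v u).mpr ⟨ha.symm, h1, hb' u⟩)
    · rintro (h1 | h1)
      · exact ((hE2 u v).mp h1).1
      · exact ((hE2 v u).mp h1).1.symm

end Pool.Agent.Work.MP_569662_co
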